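import Mathlib

set_option autoImplicit false

open Set MeasureTheory Filter
open scoped ENNReal Topology

namespace Pool.Agent.H884R2.Zeta

/-- Euclidean space of dimension `d`. -/
abbrev Eu (d : ℕ) : Type := EuclideanSpace ℝ (Fin d)

/-- A `d`-polytope: the convex hull of a finite set of points of `ℝ^d`, with nonempty interior. -/
def IsPolytope {d : ℕ} (P : Set (Eu d)) : Prop :=
  (∃ X : Finset (Eu d), P = convexHull ℝ (X : Set (Eu d))) ∧ (interior P).Nonempty

/-- The set of `k`-dimensional faces of `P` (a face is a nonempty convex extreme subset; the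
polytope itself is its only `d`-dimensional face). -/
def faces {d : ℕ} (P : Set (Eu d)) (k : ℕ) : Set (Set (Eu d)) :=
  {F | IsExtreme ℝ P F ∧ Convex ℝ F ∧ F.Nonempty ∧ Module.finrank ℝ (vectorSpan ℝ F) = k}

/-- The `k`-content of a polytope: the sum of the `k`-dimensional volumes of its `k`-faces. -/
noncomputable def content {d : ℕ} (k : ℕ) (P : Set (Eu d)) : ℝ≥0∞ :=
  ∑' F : faces P k, Measure.euclideanHausdorffMeasure k (F : Set (Eu d))

/-- The `k`-content of a convex body: the infimum of `liminf ζ_k(P_n)` over all sequences of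
`d`-polytopes tending to it in the Hausdorff metric. -/
noncomputable def bodyContent {d : ℕ} (k : ℕ) (K : Set (Eu d)) : ℝ≥0∞ :=
  ⨅ (P : ℕ → Set (Eu d)) (_ : ∀ n, IsPolytope (P n))
    (_ : Tendsto (fun n => Metric.hausdorffDist (P n) K) atTop (𝓝 0)),
    liminf (fun n => content k (P n)) atTop

/-- The class `𝒞_1^d`: compact convex sets with nonempty interior and finite `ζ_1`. -/
def IsBodyC1 {d : ℕ} (K : Set (Eu d)) : Prop :=
  IsCompact K ∧ Convex ℝ K ∧ (interior K).Nonempty ∧ bodyContent 1 K < ⊤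

/-- `z` is the vector with coordinates `ζ_k ^ (1/k)`, `k = 1, …, d`, for the contents
`c k = ζ_k` (which are then finite). -/
def IsZetaVector {d : ℕ} (c : ℕ → ℝ≥0∞) (z : Fin d → ℝ) : Prop :=
  ∀ i : Fin d, 0 ≤ z i ∧ ENNReal.ofReal (z i) ^ (i.1 + 1) = c (i.1 + 1)

/-- The set `ζ(𝒫^d)` of the `ζ`-vectors of the `d`-polytopes. -/
def zetaPolytopes (d : ℕ) : Set (Fin d → ℝ) :=
  {z | ∃ P : Set (Eu d), IsPolytope P ∧ IsZetaVector (fun k => content k P) z}

/-- The set `ζ(𝒞_1^d)` of the `ζ`-vectors of the bodies of the class `𝒞_1^d`. -/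
def zetaBodies (d : ℕ) : Set (Fin d → ℝ) :=
  {z | ∃ K : Set (Eu d), IsBodyC1 K ∧ IsZetaVector (fun k => bodyContent k K) z}

end Pool.Agent.H884R2.Zeta
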