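import Mathlib
import Pool.Agent.H884R2.Zeta.Defs

set_option autoImplicit false

open Set MeasureTheory Filter
open scoped ENNReal Topology

namespace Pool.Agent.H884R2.Zeta

theorem ofReal_pow_le {k : ℕ} (hk : k ≠ 0) {z b : ℝ} (hb : 0 ≤ b)
    (h : ENNReal.ofReal z ^ k ≤ ENNReal.ofReal b ^ k) : z ≤ b := by
  rw [ENNReal.pow_le_pow_left_iff hk] at h
  exact (ENNReal.ofReal_le_ofReal_iff hb).1 h

/-- abstract form of the argument against convexity -/
theorem not_convex_of {n : ℕ} (CC : Set (ℕ → ℝ≥0∞))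
    (ha : ∀ C₁ c₁ : ℝ, 0 < C₁ → 0 < c₁ → ∃ C₂ : ℝ, 0 < C₂ ∧ ∀ c ∈ CC, ∀ τ : ℝ, 0 < τ →
      c (n + 3) ≤ ENNReal.ofReal (C₁ * τ ^ (n + 3)) →
      ENNReal.ofReal (c₁ * τ ^ (n + 4)) ≤ c (n + 4) →
      c (n + 2) ≤ ENNReal.ofReal (C₂ * τ) * c (n + 1))
    (hb : ∃ C a : ℝ, 0 < C ∧ 0 < a ∧ ∀ δ : ℝ, 0 < δ → δ ≤ 1 → ∃ c ∈ CC,
      (∀ k, 1 ≤ k → k ≤ n + 4 → c k ≤ ENNReal.ofReal C) ∧ c (n + 3) ≤ ENNReal.ofReal (C * δ) ∧
      ENNReal.ofReal a ≤ c (n + 2) ∧ (δ = 1 → ENNReal.ofReal a ≤ c (n + 4))) :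
    ¬ Convex ℝ {z : Fin (n + 4) → ℝ | ∃ c ∈ CC, IsZetaVector c z} := by
  intro hconv
  obtain ⟨C0, a0, hC0, ha0, hb⟩ := hb
  -- normalise the constants
  set C := max C0 1 with hC
  set a := min a0 1 with haa
  have hC1 : 1 ≤ C := le_max_right _ _
  have hCC0 : C0 ≤ C := le_max_left _ _
  have ha1 : a ≤ 1 := min_le_right _ _
  have haa0 : a ≤ a0 := min_le_left _ _
  have ha_pos : 0 < a := lt_min ha0 one_pos
  have hCpos : 0 < C := by linarith
  obtain ⟨C₂, hC₂, ha⟩ := ha ((2 * C) ^ (n + 3)) (a ^ (n + 4)) (by positivity) (by positivity)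
  set τ := min (1 / 2) ((a / 2) ^ (n + 2) / (2 * (C₂ * C ^ (n + 1)))) with hτ
  have hτ0 : 0 < τ := lt_min (by norm_num) (by positivity)
  have hτ2 : τ ≤ 1 / 2 := min_le_left _ _
  have hτ3 : τ ≤ (a / 2) ^ (n + 2) / (2 * (C₂ * C ^ (n + 1))) := min_le_right _ _
  obtain ⟨c1, hc1, h11, h12, h13, -⟩ := hb (τ ^ (n + 3)) (by positivity)
    (pow_le_one₀ hτ0.le (by linarith))
  obtain ⟨c2, hc2, h21, -, -, h24⟩ := hb 1 one_pos le_rfl
  have h24 := h24 rfl
  -- the vectors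
  have hvec : ∀ c : ℕ → ℝ≥0∞, (∀ k, 1 ≤ k → k ≤ n + 4 → c k ≤ ENNReal.ofReal C0) →
      ∃ z : Fin (n + 4) → ℝ, IsZetaVector c z := by
    intro c hc
    refine ⟨fun i => (c (i.1 + 1)).toReal ^ ((1 : ℝ) / ((i.1 + 1 : ℕ) : ℝ)), fun i => ?_⟩
    have hfin : c (i.1 + 1) ≠ ⊤ :=
      ne_top_of_le_ne_top ENNReal.ofReal_ne_top (hc _ (by omega) (by omega))
    refine ⟨by positivity, ?_⟩
    rw [← ENNReal.ofReal_pow (by positivity), ← Real.rpow_natCast, ← Real.rpow_mul (by positivity),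
      one_div, inv_mul_cancel₀ (by positivity), Real.rpow_one, ENNReal.ofReal_toReal hfin]
  obtain ⟨z1, hz1⟩ := hvec c1 h11
  obtain ⟨z2, hz2⟩ := hvec c2 h21
  have hz := hconv (show z1 ∈ _ from ⟨c1, hc1, hz1⟩) (show z2 ∈ _ from ⟨c2, hc2, hz2⟩)
    (by linarith : 0 ≤ 1 - τ) hτ0.le (by ring)
  obtain ⟨c, hcCC, hz⟩ := hz
  -- upper bound C for all coordinates
  have hup : ∀ c' : ℕ → ℝ≥0∞, (∀ k, 1 ≤ k → k ≤ n + 4 → c' k ≤ ENNReal.ofReal C0) →
      ∀ z' : Fin (n + 4) → ℝ, IsZetaVector c' z' → ∀ i, z' i ≤ C := by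
    intro c' hc' z' hz' i
    apply ofReal_pow_le (k := i.1 + 1) (by omega) hCpos.le
    rw [(hz' i).2]
    refine (hc' _ (by omega) (by omega)).trans ?_
    rw [← ENNReal.ofReal_pow hCpos.le]
    apply ENNReal.ofReal_le_ofReal
    exact hCC0.trans (le_self_pow₀ hC1 (by omega))
  have hup1 := hup c1 h11 z1 hz1
  have hup2 := hup c2 h21 z2 hz2
  have hev : ∀ i, ((1 - τ) • z1 + τ • z2) i = (1 - τ) * z1 i + τ * z2 i := fun i => rfl
  -- index of ζ_{d-1}
  have e3 : c (n + 3) ≤ ENNReal.ofReal ((2 * C) ^ (n + 3) * τ ^ (n + 3)) := by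
    let i : Fin (n + 4) := ⟨n + 2, by omega⟩
    have h1 : z1 i ≤ C * τ := by
      apply ofReal_pow_le (k := n + 3) (by omega) (by positivity)
      have := (hz1 i).2
      rw [show ENNReal.ofReal (z1 i) ^ (n + 3) = c1 (n + 3) from this]
      refine h12.trans ?_
      rw [← ENNReal.ofReal_pow (by positivity)]
      apply ENNReal.ofReal_le_ofReal
      rw [mul_pow]
      gcongr
      exact hCC0.trans (le_self_pow₀ hC1 (by omega))
    have h2 := hup2 i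
    have h3 : ((1 - τ) • z1 + τ • z2) i ≤ 2 * C * τ := by
      rw [hev]
      have := (hz1 i).1
      have := (hz2 i).1
      nlinarith
    have h4 := (hz i).2
    rw [show c (n + 3) = ENNReal.ofReal (((1 - τ) • z1 + τ • z2) i) ^ (n + 3) from h4.symm,
      ← ENNReal.ofReal_pow (hz i).1]
    apply ENNReal.ofReal_le_ofReal
    rw [← mul_pow]
    exact pow_le_pow_left₀ (hz i).1 h3 _
  -- index of ζ_d
  have e4 : ENNReal.ofReal (a ^ (n + 4) * τ ^ (n + 4)) ≤ c (n + 4) := by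
    let i : Fin (n + 4) := ⟨n + 3, by omega⟩
    have h2 : a ≤ z2 i := by
      have h5 : ENNReal.ofReal a ≤ ENNReal.ofReal (z2 i) := by
        rw [← ENNReal.pow_le_pow_left_iff (by omega : n + 4 ≠ 0)]
        rw [show ENNReal.ofReal (z2 i) ^ (n + 4) = c2 (n + 4) from (hz2 i).2]
        refine le_trans ?_ h24
        rw [← ENNReal.ofReal_pow ha_pos.le]
        apply ENNReal.ofReal_le_ofReal
        exact (pow_le_of_le_one ha_pos.le ha1 (by omega)).trans haa0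
      exact (ENNReal.ofReal_le_ofReal_iff (hz2 i).1).1 h5
    have h3 : a * τ ≤ ((1 - τ) • z1 + τ • z2) i := by
      rw [hev]
      have := (hz1 i).1
      nlinarith
    rw [show c (n + 4) = ENNReal.ofReal (((1 - τ) • z1 + τ • z2) i) ^ (n + 4) from (hz i).2.symm,
      ← ENNReal.ofReal_pow (hz i).1]
    apply ENNReal.ofReal_le_ofReal
    rw [← mul_pow]
    exact pow_le_pow_left₀ (by positivity) h3 _
  -- index of ζ_{d-2}
  have e2 : ENNReal.ofReal ((a / 2) ^ (n + 2)) ≤ c (n + 2) := by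
    let i : Fin (n + 4) := ⟨n + 1, by omega⟩
    have h2 : a ≤ z1 i := by
      have h5 : ENNReal.ofReal a ≤ ENNReal.ofReal (z1 i) := by
        rw [← ENNReal.pow_le_pow_left_iff (by omega : n + 2 ≠ 0)]
        rw [show ENNReal.ofReal (z1 i) ^ (n + 2) = c1 (n + 2) from (hz1 i).2]
        refine le_trans ?_ h13
        rw [← ENNReal.ofReal_pow ha_pos.le]
        apply ENNReal.ofReal_le_ofReal
        exact (pow_le_of_le_one ha_pos.le ha1 (by omega)).trans haa0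
      exact (ENNReal.ofReal_le_ofReal_iff (hz1 i).1).1 h5
    have h3 : a / 2 ≤ ((1 - τ) • z1 + τ • z2) i := by
      rw [hev]
      have := (hz2 i).1
      nlinarith
    rw [show c (n + 2) = ENNReal.ofReal (((1 - τ) • z1 + τ • z2) i) ^ (n + 2) from (hz i).2.symm,
      ← ENNReal.ofReal_pow (hz i).1]
    apply ENNReal.ofReal_le_ofReal
    exact pow_le_pow_left₀ (by positivity) h3 _
  -- index of ζ_{d-3}
  have e1 : c (n + 1) ≤ ENNReal.ofReal (C ^ (n + 1)) := by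
    let i : Fin (n + 4) := ⟨n, by omega⟩
    have h3 : ((1 - τ) • z1 + τ • z2) i ≤ C := by
      rw [hev]
      have := hup1 i
      have := hup2 i
      nlinarith
    rw [show c (n + 1) = ENNReal.ofReal (((1 - τ) • z1 + τ • z2) i) ^ (n + 1) from (hz i).2.symm,
      ← ENNReal.ofReal_pow (hz i).1]
    apply ENNReal.ofReal_le_ofReal
    exact pow_le_pow_left₀ (hz i).1 h3 _
  have hfinal := ha c hcCC τ hτ0 e3 e4
  have h1 : ENNReal.ofReal ((a / 2) ^ (n + 2)) ≤ ENNReal.ofReal (C₂ * τ * C ^ (n + 1)) := by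
    refine e2.trans (hfinal.trans ?_)
    rw [ENNReal.ofReal_mul (by positivity : 0 ≤ C₂ * τ)]
    gcongr
  rw [ENNReal.ofReal_le_ofReal_iff (by positivity)] at h1
  have h2 : C₂ * τ * C ^ (n + 1) ≤ (a / 2) ^ (n + 2) / 2 := by
    rw [le_div_iff₀ (by positivity)] at hτ3
    linarith
  have h3 : 0 < (a / 2) ^ (n + 2) := by positivity
  linarith

end Pool.Agent.H884R2.Zeta
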