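import Mathlib
import Pool.Agent.H884R2.Zeta.Defs

set_option autoImplicit false

open Set MeasureTheory Filter
open scoped ENNReal Topology

namespace Pool.Agent.H884R2.Zeta

/-- projection to the coordinates `ι` -/
noncomputable def cp {d k : ℕ} (ι : Fin k → Fin d) : Eu d →ₗ[ℝ] Eu k where
  toFun x := WithLp.toLp 2 (fun j => x (ι j))
  map_add' x y := by ext j; simp
  map_smul' c x := by ext j; simp

@[simp] theorem cp_apply {d k : ℕ} (ι : Fin k → Fin d) (x : Eu d) (j : Fin k) :
    cp ι x j = x (ι j) := rfl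

theorem norm_cp_le {d k : ℕ} {ι : Fin k → Fin d} (hι : Function.Injective ι) (x : Eu d) :
    ‖cp ι x‖ ≤ ‖x‖ := by
  apply le_of_sq_le_sq _ (norm_nonneg _)
  rw [EuclideanSpace.norm_sq_eq, EuclideanSpace.norm_sq_eq]
  have h1 : ∑ j, ‖cp ι x j‖ ^ 2 = ∑ i ∈ Finset.univ.map ⟨ι, hι⟩, ‖x i‖ ^ 2 := by
    rw [Finset.sum_map]; rfl
  rw [h1]
  exact Finset.sum_le_sum_of_subset_of_nonneg (Finset.subset_univ _) (fun _ _ _ => by positivity)

theorem lipschitz_cp {d k : ℕ} {ι : Fin k → Fin d} (hι : Function.Injective ι) :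
    LipschitzWith 1 (cp ι) := by
  refine LipschitzWith.of_dist_le_mul fun x y => ?_
  rw [dist_eq_norm, dist_eq_norm, ← map_sub, NNReal.coe_one, one_mul]
  exact norm_cp_le hι _

theorem continuous_cp {d k : ℕ} (ι : Fin k → Fin d) : Continuous (cp ι) :=
  LinearMap.continuous_of_finiteDimensional _

theorem abs_coord_le {d : ℕ} (x : Eu d) (i : Fin d) : |x i| ≤ ‖x‖ := by
  rw [← Real.norm_eq_abs]
  exact PiLp.norm_apply_le x i

theorem norm_le_sum {d : ℕ} (x : Eu d) : ‖x‖ ≤ ∑ i, |x i| := by
  apply le_of_sq_le_sq _ (Finset.sum_nonneg fun _ _ => abs_nonneg _)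
  rw [EuclideanSpace.norm_sq_eq]
  simp_rw [Real.norm_eq_abs]
  exact Finset.sum_sq_le_sq_sum_of_nonneg (fun _ _ => abs_nonneg _)

/-- a subspace of dimension `k` has `k` coordinates which control all the others -/
theorem exists_coords {d k : ℕ} (W : Submodule ℝ (Eu d)) (hW : Module.finrank ℝ W = k) :
    ∃ ι : Fin k → Fin d, Function.Injective ι ∧ ∀ w ∈ W, ∀ i, |w i| ≤ ∑ j, |w (ι j)| := by
  classical
  let b : Module.Basis (Fin k) ℝ W := Module.finBasisOfFinrankEq ℝ W hW
  let A : Matrix (Fin d) (Fin k) ℝ := fun i a => (b a : Eu d) i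
  -- the columns are independent
  have hcol : LinearIndependent ℝ A.transpose.row := by
    have h1 : LinearIndependent ℝ (fun a => ((b a : W) : Eu d)) :=
      b.linearIndependent.map' W.subtype (Submodule.ker_subtype W)
    have h2 := h1.map' (WithLp.linearEquiv 2 ℝ (Fin d → ℝ)).toLinearMap
      (LinearMap.ker_eq_bot.2 (WithLp.linearEquiv 2 ℝ (Fin d → ℝ)).injective)
    exact h2
  have hrank : A.rank = k := by
    rw [← Matrix.rank_transpose, hcol.rank_matrix, Fintype.card_fin]
  have hspan : Module.finrank ℝ (Submodule.span ℝ (Set.range A.row)) = k := by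
    rw [← Matrix.rank_eq_finrank_span_row, hrank]
  obtain ⟨f, hf1, hf2, hf3⟩ := Submodule.exists_fun_fin_finrank_span_eq ℝ (Set.range A.row)
  have hex : ∃ ι : Fin k → Fin d, LinearIndependent ℝ (fun j => A.row (ι j)) := by
    choose g hg using hf1
    refine ⟨fun j => g (Fin.cast hspan.symm j), ?_⟩
    have : (fun j : Fin k => A.row (g (Fin.cast hspan.symm j))) =
        f ∘ (Fin.cast hspan.symm) := by
      ext1 j; exact hg _
    rw [this]
    exact hf3.comp _ (Fin.cast_injective _)
  obtain ⟨ι0, hι0⟩ := hex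
  have hdet0 : (A.submatrix ι0 id).det ≠ 0 := by
    have h1 : LinearIndependent ℝ (A.submatrix ι0 id).row := hι0
    exact ((Matrix.isUnit_iff_isUnit_det _).1 (Matrix.linearIndependent_rows_iff_isUnit.1 h1)).ne_zero
  have : Nonempty (Fin k → Fin d) := ⟨ι0⟩
  obtain ⟨ι, hι⟩ := Finite.exists_max (fun ι : Fin k → Fin d => |(A.submatrix ι id).det|)
  have hdet : (A.submatrix ι id).det ≠ 0 := by
    have := lt_of_lt_of_le (abs_pos.2 hdet0) (hι ι0)
    exact abs_pos.1 this
  refine ⟨ι, ?_, ?_⟩
  · intro j j' hjj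
    by_contra hne
    exact hdet (Matrix.det_zero_of_row_eq hne (by ext a; simp [hjj]))
  · intro w hw i
    set N := A.submatrix ι id with hN
    set c := Matrix.vecMul (A i) N⁻¹ with hc
    have hcN : A i = ∑ j, c j • N j := by
      have h1 : Matrix.vecMul c N = A i := by
        rw [hc, Matrix.vecMul_vecMul, Matrix.nonsing_inv_mul _ (isUnit_iff_ne_zero.2 hdet),
          Matrix.vecMul_one]
      rw [← h1, Matrix.vecMul_eq_sum]
    have hc1 : ∀ j, |c j| ≤ 1 := by
      intro j
      have h1 := Matrix.det_updateRow_sum N j c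
      rw [← hcN] at h1
      have h2 : N.updateRow j (A i) = A.submatrix (Function.update ι j i) id := by
        ext a e
        by_cases ha : a = j
        · subst ha; simp
        · simp [Matrix.updateRow_ne ha, Function.update_of_ne ha, hN]
      rw [h2, smul_eq_mul] at h1
      have h3 := hι (Function.update ι j i)
      rw [h1, abs_mul] at h3
      have h4 : 0 < |N.det| := abs_pos.2 hdet
      exact le_of_mul_le_mul_right (by simpa using h3) h4
    -- expand w
    set y := b.repr ⟨w, hw⟩ with hy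
    have hwy : ∀ l, w l = ∑ a, y a * A l a := by
      intro l
      have h1 : (⟨w, hw⟩ : W) = ∑ a, y a • b a := (b.sum_repr ⟨w, hw⟩).symm
      have h2 := congrArg (fun z : W => (z : Eu d) l) h1
      simp only [Submodule.coe_sum, Submodule.coe_smul] at h2
      rw [h2]
      simp [A]
    have hwi : w i = ∑ j, c j * w (ι j) := by
      rw [hwy i]
      have h1 : ∀ a, A i a = ∑ j, c j * N j a := by
        intro a
        rw [hcN]; simp
      simp_rw [h1, hwy (ι _), Finset.mul_sum]
      rw [Finset.sum_comm]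
      refine Finset.sum_congr rfl fun j _ => Finset.sum_congr rfl fun a _ => ?_
      simp [hN]; ring
    rw [hwi]
    refine (Finset.abs_sum_le_sum_abs _ _).trans (Finset.sum_le_sum fun j _ => ?_)
    rw [abs_mul]
    exact mul_le_of_le_one_left (abs_nonneg _) (hc1 j)

theorem image_measure_le {X Y : Type*} [EMetricSpace X] [MeasurableSpace X] [BorelSpace X]
    [EMetricSpace Y] [MeasurableSpace Y] [BorelSpace Y] {K : NNReal} {f : X → Y}
    (hf : LipschitzWith K f) (k : ℕ) (s : Set X) :
    Measure.euclideanHausdorffMeasure k (f '' s) ≤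
      (K : ℝ≥0∞) ^ k * Measure.euclideanHausdorffMeasure k s := by
  rw [Measure.euclideanHausdorffMeasure_def, Measure.euclideanHausdorffMeasure_def,
    Measure.smul_apply, Measure.smul_apply, ENNReal.smul_def, ENNReal.smul_def, smul_eq_mul,
    smul_eq_mul, ← mul_assoc, mul_comm ((K : ℝ≥0∞) ^ k), mul_assoc]
  gcongr
  have := hf.hausdorffMeasure_image_le (d := (k : ℝ)) (by positivity) s
  rwa [ENNReal.rpow_natCast] at this

/-- the `k`-volume of a `k`-dimensional set is controlled by a coordinate projection -/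
theorem face_measure_le {d k : ℕ} {F : Set (Eu d)}
    (hF : Module.finrank ℝ (vectorSpan ℝ F) = k) : ∃ ι : Fin k → Fin d, Function.Injective ι ∧
      (∀ w ∈ vectorSpan ℝ F, cp ι w = 0 → w = 0) ∧
      Measure.euclideanHausdorffMeasure k F ≤ ((d * k : ℕ) : ℝ≥0∞) ^ k * volume (cp ι '' F) := by
  obtain ⟨ι, hι, hb⟩ := exists_coords (vectorSpan ℝ F) hF
  have hnorm : ∀ w ∈ vectorSpan ℝ F, ‖w‖ ≤ (d * k : ℕ) * ‖cp ι w‖ := by
    intro w hw
    calc ‖w‖ ≤ ∑ i, |w i| := norm_le_sum w
      _ ≤ ∑ i : Fin d, ∑ j, |w (ι j)| := Finset.sum_le_sum fun i _ => hb w hw i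
      _ ≤ ∑ i : Fin d, ∑ j : Fin k, ‖cp ι w‖ := by
        refine Finset.sum_le_sum fun i _ => Finset.sum_le_sum fun j _ => ?_
        exact abs_coord_le (cp ι w) j
      _ = (d * k : ℕ) * ‖cp ι w‖ := by simp; ring
  have hker : ∀ w ∈ vectorSpan ℝ F, cp ι w = 0 → w = 0 := by
    intro w hw h
    have := hnorm w hw
    rw [h, norm_zero, mul_zero] at this
    exact norm_le_zero_iff.1 this
  refine ⟨ι, hι, hker, ?_⟩
  rcases F.eq_empty_or_nonempty with rfl | ⟨x0, hx0⟩
  · simp
  let L : vectorSpan ℝ F →ₗ[ℝ] Eu k := (cp ι).comp (vectorSpan ℝ F).subtype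
  have hL : Function.Injective L := by
    rw [← LinearMap.ker_eq_bot, LinearMap.ker_eq_bot']
    intro w hw
    exact Subtype.ext (hker w.1 w.2 hw)
  let e := LinearMap.linearEquivOfInjective L hL (by rw [hF]; simp)
  let g : Eu k → Eu d := fun y => x0 + (e.symm (y - cp ι x0) : Eu d)
  have hg : LipschitzWith ((d * k : ℕ) : NNReal) g := by
    refine LipschitzWith.of_dist_le_mul fun y y' => ?_
    have h1 : g y - g y' = (e.symm (y - y') : Eu d) := by
      simp only [g]
      rw [add_sub_add_left_eq_sub, ← Submodule.coe_sub, ← map_sub, sub_sub_sub_cancel_right]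
    rw [dist_eq_norm, dist_eq_norm, h1]
    have h2 := hnorm _ (e.symm (y - y')).2
    have h3 : cp ι (e.symm (y - y') : Eu d) = y - y' := e.apply_symm_apply (y - y')
    rw [h3] at h2
    simpa using h2
  have hFg : F = g '' (cp ι '' F) := by
    rw [← Set.image_comp]
    have : Set.EqOn (g ∘ cp ι) id F := by
      intro x hx
      have hw : x - x0 ∈ vectorSpan ℝ F := vsub_mem_vectorSpan ℝ hx hx0
      have h1 : cp ι x - cp ι x0 = e ⟨x - x0, hw⟩ := by
        rw [← map_sub]; rfl
      simp only [Function.comp, g, id, h1, e.symm_apply_apply]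
      abel
    rw [this.image_eq, Set.image_id]
  calc Measure.euclideanHausdorffMeasure k F
      = Measure.euclideanHausdorffMeasure k (g '' (cp ι '' F)) := by rw [← hFg]
    _ ≤ _ := by
      have := image_measure_le hg k (cp ι '' F)
      rw [EuclideanSpace.euclideanHausdorffMeasure_eq_volume] at this
      simpa using this

end Pool.Agent.H884R2.Zeta
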