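import Mathlib
import Pool.Agent.H884R2.Zeta.Minor

set_option autoImplicit false

open Set MeasureTheory Filter
open scoped ENNReal Topology

namespace Pool.Agent.H884R2.Zeta

/-- unit coordinate vector -/
noncomputable def ev {d : ℕ} (i : Fin d) : Eu d := EuclideanSpace.single i 1

theorem ev_same {d : ℕ} (i : Fin d) : ev i i = 1 := by simp [ev]

theorem ev_ne {d : ℕ} {i j : Fin d} (h : j ≠ i) : ev i j = 0 := by
  simp [ev, h]

theorem shift_volume {m : ℕ} {P : Set (Eu (m + 1))} (hPc : Convex ℝ P) (hPk : IsCompact P)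
    (i : Fin (m + 1)) (r : ℝ) :
    volume {x | x ∈ P ∧ x + r • ev i ∉ P} ≤
      ENNReal.ofReal |r| * volume (cp i.succAbove '' P) := by
  have h1 : MeasurePreserving (MeasurableEquiv.toLp 2 (Fin (m + 1) → ℝ)).symm :=
    PiLp.volume_preserving_ofLp (Fin (m + 1))
  have h2 : MeasurePreserving (MeasurableEquiv.piFinSuccAbove (fun _ : Fin (m + 1) => ℝ) i) :=
    volume_preserving_piFinSuccAbove (fun _ => ℝ) i
  have h3 : MeasurePreserving (MeasurableEquiv.toLp 2 (Fin m → ℝ)) :=
    PiLp.volume_preserving_toLp (Fin m)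
  set φ := (MeasurableEquiv.toLp 2 (Fin (m + 1) → ℝ)).symm.trans
    (MeasurableEquiv.piFinSuccAbove (fun _ : Fin (m + 1) => ℝ) i) with hφ
  have hφm : MeasurePreserving φ := h2.comp h1
  have hPm : MeasurableSet P := hPk.measurableSet
  set S := {x | x ∈ P ∧ x + r • ev i ∉ P} with hS
  have hSm : MeasurableSet S := by
    have : MeasurableSet ((fun x : Eu (m + 1) => x + r • ev i) ⁻¹' P) :=
      (hPk.isClosed.preimage (by fun_prop)).measurableSet
    exact hPm.inter this.compl
  have hSφ : volume S = volume (φ.symm ⁻¹' S) := by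
    rw [(hφm.symm φ).measure_preimage_equiv]
  have hline : ∀ (t : ℝ) (y : Fin m → ℝ), (φ.symm (t, y)) i = t ∧
      ∀ j, (φ.symm (t, y)) (i.succAbove j) = y j := by
    intro t y
    have e : φ.symm (t, y) = WithLp.toLp 2 (Fin.insertNth i t y) := rfl
    rw [e]
    exact ⟨by simp, fun j => by simp⟩
  have hshift : ∀ (t s : ℝ) (y : Fin m → ℝ), φ.symm (t, y) + s • ev i = φ.symm (t + s, y) := by
    intro t s y
    ext k
    rcases Fin.eq_self_or_eq_succAbove i k with rfl | ⟨j, rfl⟩
    · rw [(hline (t + s) y).1, PiLp.add_apply, (hline t y).1, PiLp.smul_apply, ev_same]; simp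
    · rw [(hline (t + s) y).2 j, PiLp.add_apply, (hline t y).2 j, PiLp.smul_apply,
        ev_ne (Fin.succAbove_ne i j)]; simp
  have hcvx : ∀ y : Fin m → ℝ, Set.OrdConnected {t : ℝ | φ.symm (t, y) ∈ P} := by
    intro y
    refine Set.ordConnected_iff.2 fun t ht t' ht' htt s hs => ?_
    rcases htt.eq_or_lt with h | h
    · have : s = t := le_antisymm (by rw [h]; exact hs.2) hs.1
      rw [this]; exact ht
    · set c := (s - t) / (t' - t) with hc
      have hc0 : 0 ≤ c := div_nonneg (by linarith [hs.1]) (by linarith)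
      have hc1 : c ≤ 1 := by rw [hc, div_le_one (by linarith)]; linarith [hs.2]
      have hcm : c * (t' - t) = s - t := div_mul_cancel₀ _ (by linarith)
      have h4 := hPc ht ht' (by linarith : 0 ≤ 1 - c) hc0 (by ring)
      have h5 : (1 - c) • φ.symm (t, y) + c • φ.symm (t', y) = φ.symm (s, y) := by
        have h6 : φ.symm (t', y) = φ.symm (t, y) + (t' - t) • ev i := by
          rw [hshift]; congr 2; ring
        have h7 : φ.symm (s, y) = φ.symm (t, y) + (s - t) • ev i := by
          rw [hshift]; congr 2; ring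
        rw [h6, h7, ← hcm]
        module
      rw [h5] at h4
      exact h4
  have hslice : ∀ y : Fin m → ℝ, volume ((fun t => (t, y)) ⁻¹' (φ.symm ⁻¹' S)) ≤
      ((MeasurableEquiv.toLp 2 (Fin m → ℝ)) ⁻¹' (cp i.succAbove '' P)).indicator
        (fun _ => ENNReal.ofReal |r|) y := by
    intro y
    rcases ((fun t => (t, y)) ⁻¹' (φ.symm ⁻¹' S)).eq_empty_or_nonempty with h | ⟨t0, ht0⟩
    · rw [h]; simp
    · have hy : y ∈ (MeasurableEquiv.toLp 2 (Fin m → ℝ)) ⁻¹' (cp i.succAbove '' P) := by
        refine ⟨φ.symm (t0, y), ht0.1, ?_⟩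
        ext j
        rw [cp_apply, (hline t0 y).2 j]
        rfl
      rw [Set.indicator_of_mem hy]
      refine (Real.volume_le_diam _).trans (Metric.ediam_le ?_)
      have key : ∀ t ∈ ((fun t => (t, y)) ⁻¹' (φ.symm ⁻¹' S)),
          ∀ t' ∈ ((fun t => (t, y)) ⁻¹' (φ.symm ⁻¹' S)), t ≤ t' → t' - t ≤ |r| := by
        intro t ht t' ht' htt
        by_contra hlt
        push Not at hlt
        rcases le_total 0 r with hr | hr
        · rw [abs_of_nonneg hr] at hlt
          apply ht.2
          rw [hshift]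
          exact (hcvx y).out ht.1 ht'.1 ⟨by linarith, by linarith⟩
        · rw [abs_of_nonpos hr] at hlt
          apply ht'.2
          rw [hshift]
          exact (hcvx y).out ht.1 ht'.1 ⟨by linarith, by linarith⟩
      intro t ht t' ht'
      rw [edist_dist, Real.dist_eq]
      apply ENNReal.ofReal_le_ofReal
      rcases le_total t t' with h | h
      · rw [abs_sub_comm, abs_of_nonneg (by linarith)]
        exact key t ht t' ht' h
      · rw [abs_of_nonneg (by linarith)]
        exact key t' ht' t ht h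
  have hAm : MeasurableSet ((MeasurableEquiv.toLp 2 (Fin m → ℝ)) ⁻¹' (cp i.succAbove '' P)) :=
    (MeasurableEquiv.toLp 2 (Fin m → ℝ)).measurable
      (hPk.image (continuous_cp _)).isClosed.measurableSet
  rw [hSφ, Measure.volume_eq_prod, Measure.prod_apply_symm (φ.symm.measurable hSm)]
  refine (lintegral_mono hslice).trans ?_
  rw [lintegral_indicator_const hAm, h3.measure_preimage_equiv]

/-- a convex set contains small sums of segments at a point -/
theorem star_sum {d k : ℕ} {A : Set (Eu d)} (hA : Convex ℝ A) {x : Eu d} (hx : x ∈ A)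
    (v : Fin k → Eu d) (hv : ∀ j, x + v j ∈ A) (y : Fin k → ℝ) (hy : ∀ j, 0 ≤ y j)
    (hs : ∑ j, y j ≤ 1) : x + ∑ j, y j • v j ∈ A := by
  have h := hA.sum_mem (t := (Finset.univ : Finset (Option (Fin k))))
    (w := fun o => o.elim (1 - ∑ j, y j) y) (z := fun o => o.elim x (fun j => x + v j)) ?_ ?_ ?_
  · rw [Fintype.sum_option] at h
    simp only [Option.elim] at h
    have e : x + ∑ j, y j • v j = (1 - ∑ j, y j) • x + ∑ j, y j • (x + v j) := by
      simp_rw [smul_add]
      rw [Finset.sum_add_distrib, ← Finset.sum_smul]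
      module
    rw [e]; exact h
  · rintro (_ | j) _
    · simpa using hs
    · exact hy j
  · rw [Fintype.sum_option]
    simp
  · rintro (_ | j) _
    · exact hx
    · exact hv j

theorem box_volume {k : ℕ} (b : Fin k → ℝ) :
    volume {y : Eu k | ∀ j, 0 ≤ y j ∧ y j ≤ b j} = ∏ j, ENNReal.ofReal (b j) := by
  have h3 : MeasurePreserving (MeasurableEquiv.toLp 2 (Fin k → ℝ)) :=
    PiLp.volume_preserving_toLp (Fin k)
  rw [← h3.measure_preimage_equiv]
  have : (MeasurableEquiv.toLp 2 (Fin k → ℝ)) ⁻¹' {y : Eu k | ∀ j, 0 ≤ y j ∧ y j ≤ b j} =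
      Set.Icc 0 b := by
    ext f
    simp only [Set.mem_preimage, Set.mem_Icc, Pi.le_def, ← forall_and]
    rfl
  rw [this, Real.volume_Icc_pi]
  simp

theorem spike_volume {m : ℕ} {A : Set (Eu m)} (hA : Convex ℝ A) {x : Eu m} (hx : x ∈ A) {r : ℝ}
    (hr : 0 < r) (h : ∀ k, x + r • ev k ∈ A) {p : Eu m} (hp : p ∈ A) (j : Fin m) :
    ENNReal.ofReal ((r / m) ^ m * (|p j - x j| / r)) ≤ volume A := by
  have hm : 0 < m := Fin.pos j
  have hm' : (0 : ℝ) < m := by exact_mod_cast hm
  set q : Fin m → ℝ := fun k => (p k - x k) / r with hq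
  set M : Matrix (Fin m) (Fin m) ℝ := (1 : Matrix (Fin m) (Fin m) ℝ).updateCol j q with hM
  have hdet : M.det = q j := by
    rw [hM, ← Matrix.cramer_apply, Matrix.cramer_one]; rfl
  set T : Eu m →ₗ[ℝ] Eu m := Matrix.toLin (PiLp.basisFun 2 ℝ (Fin m)) (PiLp.basisFun 2 ℝ (Fin m)) M
    with hT
  have hTdet : LinearMap.det T = q j := by rw [hT, LinearMap.det_toLin, hdet]
  have hTev : ∀ k, T (ev k) = WithLp.toLp 2 (fun i => M i k) := by
    intro k
    have h1 : (ev k : Eu m) = PiLp.basisFun 2 ℝ (Fin m) k := by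
      ext i; simp [ev, PiLp.basisFun_apply]
    rw [h1, hT, Matrix.toLin_self]
    ext i
    simp [PiLp.basisFun_apply, Finset.sum_apply, Pi.single_apply]
  set Cb : Set (Eu m) := {y | ∀ k, 0 ≤ y k ∧ y k ≤ (1 : ℝ) / m} with hCb
  have hsub : (fun y => x + r • T y) '' Cb ⊆ A := by
    rintro _ ⟨y, hy, rfl⟩
    have h1 : T y = ∑ k, y k • T (ev k) := by
      have : y = ∑ k, y k • (ev k : Eu m) := by
        ext i
        simp [ev, Finset.sum_apply, Pi.single_apply]
      conv_lhs => rw [this]
      rw [map_sum]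
      exact Finset.sum_congr rfl fun k _ => by rw [map_smul]
    have h2 : x + r • T y = x + ∑ k, y k • (r • T (ev k)) := by
      rw [h1, Finset.smul_sum]
      congr 1
      exact Finset.sum_congr rfl fun k _ => smul_comm _ _ _
    show x + r • T y ∈ A
    rw [h2]
    apply star_sum hA hx _ _ _ (fun k => (hy k).1)
    · calc ∑ k, y k ≤ ∑ _k : Fin m, (1 : ℝ) / m := Finset.sum_le_sum fun k _ => (hy k).2
        _ = 1 := by simp [hm'.ne']
    · intro k
      rw [hTev]
      by_cases hk : k = j
      · have : x + r • (WithLp.toLp 2 (fun i => M i k) : Eu m) = p := by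
          ext i
          rw [PiLp.add_apply, PiLp.smul_apply]
          simp only [hM, hk, Matrix.updateCol_self, hq, smul_eq_mul]
          field_simp
          ring
        rw [this]; exact hp
      · have : (WithLp.toLp 2 (fun i => M i k) : Eu m) = ev k := by
          ext i
          simp only [hM, Matrix.updateCol_ne hk, ev, Matrix.one_apply]
          simp
        rw [this]; exact h k
  have hvol : volume ((fun y => x + r • T y) '' Cb) =
      ENNReal.ofReal ((r / m) ^ m * (|p j - x j| / r)) := by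
    have e : (fun y => x + r • T y) '' Cb = (fun z => x + z) '' ((r • T) '' Cb) := by
      rw [Set.image_image]; rfl
    rw [e]
    have h4 : volume ((fun z => x + z) '' ((r • T) '' Cb)) = volume ((r • T) '' Cb) := by
      rw [Set.image_add_left, measure_preimage_add]
    have hCbv : volume Cb = ENNReal.ofReal ((1 / m) ^ m) := by
      rw [hCb, box_volume (fun _ => (1 : ℝ) / m), Finset.prod_const, Finset.card_univ,
        Fintype.card_fin, ENNReal.ofReal_pow (by positivity)]
    rw [h4, Measure.addHaar_image_linearMap, LinearMap.det_smul, hTdet,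
      finrank_euclideanSpace_fin, hCbv, ← ENNReal.ofReal_mul (abs_nonneg _)]
    congr 1
    rw [abs_mul, abs_of_pos (pow_pos hr m), hq, abs_div, abs_of_pos hr, div_pow, div_pow, one_pow]
    ring
  rw [← hvol]
  exact measure_mono hsub

/-- A convex body of volume at least `c τ^(m+1)` all of whose coordinate projections have
volume at most `C τ^m` has diameter at most `C₂ τ`. -/
theorem diam_bound {m : ℕ} (hm : 1 ≤ m) {C c : ℝ} (hC : 0 < C) (hc : 0 < c) :
    ∃ C₂ : ℝ, 0 < C₂ ∧ ∀ P : Set (Eu (m + 1)), Convex ℝ P → IsCompact P → ∀ τ : ℝ, 0 < τ →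
      (∀ i : Fin (m + 1), volume (cp i.succAbove '' P) ≤ ENNReal.ofReal (C * τ ^ m)) →
      ENNReal.ofReal (c * τ ^ (m + 1)) ≤ volume P →
      ∃ x : Eu (m + 1), ∀ p ∈ P, ∀ j, |p j - x j| ≤ C₂ * τ := by
  set ρ := c / (4 * (m + 1) * C) with hρ
  have hm' : (0 : ℝ) < m := by exact_mod_cast hm
  have hρ0 : 0 < ρ := by positivity
  refine ⟨C * ρ / (ρ / m) ^ m, by positivity, ?_⟩
  intro P hPc hPk τ hτ hproj hvol
  set r := ρ * τ with hr
  have hr0 : 0 < r := by positivity
  -- a point with a cross around it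
  have hex : ∃ x ∈ P, ∀ i, x + r • ev i ∈ P := by
    by_contra hcon
    push Not at hcon
    have hsub : P ⊆ ⋃ i : Fin (m + 1), {x | x ∈ P ∧ x + r • ev i ∉ P} := by
      intro x hx
      obtain ⟨i, hi⟩ := hcon x hx
      exact Set.mem_iUnion.2 ⟨i, hx, hi⟩
    have h1 : volume P ≤ ENNReal.ofReal ((m + 1) * (r * (C * τ ^ m))) := by
      calc volume P ≤ volume (⋃ i : Fin (m + 1), {x | x ∈ P ∧ x + r • ev i ∉ P}) :=
            measure_mono hsub
        _ ≤ ∑ i : Fin (m + 1), volume {x | x ∈ P ∧ x + r • ev i ∉ P} :=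
            measure_iUnion_fintype_le _ _
        _ ≤ ∑ _i : Fin (m + 1), ENNReal.ofReal (r * (C * τ ^ m)) := by
            refine Finset.sum_le_sum fun i _ => ?_
            refine (shift_volume hPc hPk i r).trans ?_
            rw [abs_of_pos hr0, ENNReal.ofReal_mul hr0.le]
            gcongr
            exact hproj i
        _ = ENNReal.ofReal ((m + 1) * (r * (C * τ ^ m))) := by
            rw [Finset.sum_const, Finset.card_univ, Fintype.card_fin, nsmul_eq_mul,
              ENNReal.ofReal_mul (by positivity : (0 : ℝ) ≤ (m : ℝ) + 1)]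
            congr 1
            have : ((m : ℝ) + 1) = ((m + 1 : ℕ) : ℝ) := by push_cast; ring
            rw [this, ENNReal.ofReal_natCast]
    have h2 : (m + 1) * (r * (C * τ ^ m)) = c * τ ^ (m + 1) / 4 := by
      rw [hr, hρ]; field_simp; ring
    rw [h2] at h1
    have h3 : ENNReal.ofReal (c * τ ^ (m + 1) / 4) < ENNReal.ofReal (c * τ ^ (m + 1)) := by
      rw [ENNReal.ofReal_lt_ofReal_iff (by positivity)]
      have : 0 < c * τ ^ (m + 1) := by positivity
      linarith
    exact absurd (hvol.trans h1) (not_le.2 h3)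
  obtain ⟨x, hx, hcross⟩ := hex
  refine ⟨x, fun p hp j => ?_⟩
  have hnt : Nontrivial (Fin (m + 1)) := by
    rw [Fin.nontrivial_iff_two_le]; omega
  obtain ⟨i, hij⟩ := exists_ne j
  obtain ⟨j', rfl⟩ := Fin.exists_succAbove_eq hij.symm
  have hA : Convex ℝ (cp i.succAbove '' P) := hPc.linear_image _
  have h1 := spike_volume hA (Set.mem_image_of_mem _ hx) hr0 (fun k => by
    refine ⟨x + r • ev (i.succAbove k), hcross _, ?_⟩
    rw [map_add, map_smul]
    congr 2
    ext l
    rw [cp_apply]
    by_cases hl : l = k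
    · rw [hl, ev_same, ev_same]
    · rw [ev_ne hl, ev_ne (fun h => hl (Fin.succAbove_right_injective h))])
    (Set.mem_image_of_mem _ hp) j'
  have h2 := h1.trans (hproj i)
  rw [ENNReal.ofReal_le_ofReal_iff (by positivity), cp_apply, cp_apply] at h2
  set h := |p.ofLp (i.succAbove j') - x.ofLp (i.succAbove j')| with hh
  have h3 : (r / (m : ℝ)) ^ m = (ρ / m) ^ m * τ ^ m := by
    rw [hr, ← mul_pow]; congr 1; ring
  rw [h3] at h2
  have h4 : (ρ / (m : ℝ)) ^ m * (h / r) ≤ C := by
    have h5 : (ρ / (m : ℝ)) ^ m * (h / r) * τ ^ m ≤ C * τ ^ m := by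
      calc _ = (ρ / (m : ℝ)) ^ m * τ ^ m * (h / r) := by ring
        _ ≤ _ := h2
    exact le_of_mul_le_mul_right h5 (by positivity)
  have h6 : (ρ / (m : ℝ)) ^ m * h ≤ C * r := by
    rw [← mul_div_assoc, div_le_iff₀ hr0] at h4
    exact h4
  rw [div_mul_eq_mul_div, le_div_iff₀ (by positivity)]
  calc h * (ρ / (m : ℝ)) ^ m = (ρ / (m : ℝ)) ^ m * h := by ring
    _ ≤ C * r := h6
    _ = C * ρ * τ := by rw [hr]; ring

end Pool.Agent.H884R2.Zeta
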