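import Mathlib

set_option autoImplicit false

open Set

namespace Pool.Agent.H884R2.Zeta

variable {E : Type*} [AddCommGroup E] [Module ℝ E]

/-- the smallest face containing `x` -/
def minFace (P : Set E) (x : E) : Set E := {p | p ∈ P ∧ ∃ ε : ℝ, 0 < ε ∧ x + ε • (x - p) ∈ P}

theorem minFace_sub (P : Set E) (x : E) : minFace P x ⊆ P := fun _ h => h.1

theorem self_mem_minFace {P : Set E} {x : E} (hx : x ∈ P) : x ∈ minFace P x :=
  ⟨hx, 1, one_pos, by simpa using hx⟩

theorem shrink {P : Set E} (hP : Convex ℝ P) {x v : E} (hx : x ∈ P) {ε ε' : ℝ} (hε : 0 < ε)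
    (hε' : 0 ≤ ε') (hle : ε' ≤ ε) (h : x + ε • v ∈ P) : x + ε' • v ∈ P := by
  have h1 : x + ε' • v = (1 - ε' / ε) • x + (ε' / ε) • (x + ε • v) := by
    rw [smul_add, smul_smul, div_mul_cancel₀ _ hε.ne']; module
  rw [h1]
  have h2 : 0 ≤ ε' / ε := by positivity
  have h3 : ε' / ε ≤ 1 := by rw [div_le_one hε]; exact hle
  exact hP hx h (by linarith) h2 (by ring)

theorem minFace_convex {P : Set E} (hP : Convex ℝ P) {x : E} (hx : x ∈ P) :
    Convex ℝ (minFace P x) := by
  rintro p ⟨hp, ε1, hε1, h1⟩ q ⟨hq, ε2, hε2, h2⟩ a b ha hb hab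
  refine ⟨hP hp hq ha hb hab, min ε1 ε2, by positivity, ?_⟩
  have k1 := shrink hP hx hε1 (by positivity) (min_le_left ε1 ε2) h1
  have k2 := shrink hP hx hε2 (by positivity) (min_le_right ε1 ε2) h2
  have := hP k1 k2 ha hb hab
  have e : x + min ε1 ε2 • (x - (a • p + b • q)) = a • (x + min ε1 ε2 • (x - p)) +
      b • (x + min ε1 ε2 • (x - q)) := by
    have hb' : b = 1 - a := by linarith
    rw [hb']; module
  rw [e]; exact this

theorem minFace_extreme {P : Set E} (hP : Convex ℝ P) {x : E} :
    IsExtreme ℝ P (minFace P x) := by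
  refine ⟨minFace_sub P x, ?_⟩
  rintro p1 hp1 p2 hp2 p ⟨hp, ε, hε, hq⟩ ⟨a, b, ha, hb, hab, rfl⟩
  refine ⟨hp1, ?_⟩
  -- r = (q + ε b p2) / (1 + ε b)
  set q := x + ε • (x - (a • p1 + b • p2)) with hqdef
  have hden : 0 < 1 + ε * b := by positivity
  have hr : (1 + ε * b)⁻¹ • q + ((1 + ε * b)⁻¹ * (ε * b)) • p2 ∈ P :=
    hP hq hp2 (by positivity) (by positivity) (by field_simp)
  refine ⟨(1 + ε * b)⁻¹ * (ε * a), by positivity, ?_⟩
  have e : x + ((1 + ε * b)⁻¹ * (ε * a)) • (x - p1) =
      (1 + ε * b)⁻¹ • q + ((1 + ε * b)⁻¹ * (ε * b)) • p2 := by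
    have h1 : (1 + ε * b) • (x + ((1 + ε * b)⁻¹ * (ε * a)) • (x - p1)) =
        (1 + ε * b) • ((1 + ε * b)⁻¹ • q + ((1 + ε * b)⁻¹ * (ε * b)) • p2) := by
      have c1 : (1 + ε * b) * ((1 + ε * b)⁻¹ * (ε * a)) = ε * a := by
        rw [← mul_assoc, mul_inv_cancel₀ hden.ne', one_mul]
      have c2 : (1 + ε * b) * ((1 + ε * b)⁻¹ * (ε * b)) = ε * b := by
        rw [← mul_assoc, mul_inv_cancel₀ hden.ne', one_mul]
      rw [smul_add, smul_add, smul_smul, smul_smul, smul_smul, c1, c2,
        mul_inv_cancel₀ hden.ne', one_smul, hqdef]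
      have hb' : b = 1 - a := by linarith
      rw [hb']; module
    exact smul_right_injective E hden.ne' h1
  rw [e]; exact hr

theorem minFace_relint {P : Set E} (hP : Convex ℝ P) {x : E} (hx : x ∈ P) {v : E}
    (hv : v ∈ vectorSpan ℝ (minFace P x)) :
    ∃ ε : ℝ, 0 < ε ∧ x + ε • v ∈ minFace P x ∧ x + ε • (-v) ∈ minFace P x := by
  have hxF := self_mem_minFace hx
  have hFc := minFace_convex hP hx
  have hFe := minFace_extreme hP (x := x)
  -- opposite points are in the face
  have hopp : ∀ p ∈ minFace P x, ∃ ε : ℝ, 0 < ε ∧ x + ε • (x - p) ∈ minFace P x := by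
    rintro p ⟨hp, ε, hε, h⟩
    refine ⟨ε, hε, ?_⟩
    have hseg : x ∈ openSegment ℝ (x + ε • (x - p)) p := by
      refine ⟨1 / (1 + ε), ε / (1 + ε), by positivity, by positivity, by field_simp, ?_⟩
      have h1 : (1 + ε) • ((1 / (1 + ε)) • (x + ε • (x - p)) + (ε / (1 + ε)) • p) =
          (1 + ε) • x := by
        rw [smul_add, smul_smul, smul_smul, mul_one_div_cancel (by positivity : (1 + ε) ≠ 0),
          mul_div_cancel₀ _ (by positivity : (1 + ε) ≠ 0)]
        module
      exact smul_right_injective E (by positivity : (1 + ε) ≠ 0) h1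
    exact hFe.left_mem_of_mem_openSegment h hp hxF hseg
  induction hv using Submodule.span_induction with
  | mem v hv =>
    obtain ⟨p, hp, q, hq, rfl⟩ := Set.mem_vsub.1 hv
    have aux : ∀ p ∈ minFace P x, ∀ q ∈ minFace P x, ∃ ε : ℝ, 0 < ε ∧
        x + ε • (p - q) ∈ minFace P x := by
      intro p hp q hq
      obtain ⟨ε, hε, h⟩ := hopp q hq
      -- x + min ε 1 (p - x), x + min ε 1 (x - q)
      have h1 : x + min ε 1 • (x - q) ∈ minFace P x :=
        shrink hFc hxF hε (by positivity) (min_le_left _ _) h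
      have h2 : x + min ε 1 • (p - x) ∈ minFace P x :=
        shrink hFc hxF one_pos (by positivity) (min_le_right _ _) (by simpa using hp)
      refine ⟨min ε 1 / 2, by positivity, ?_⟩
      have := hFc h1 h2 (by norm_num : (0 : ℝ) ≤ 1 / 2) (by norm_num : (0 : ℝ) ≤ 1 / 2) (by norm_num)
      have e : x + (min ε 1 / 2) • (p - q) = (1 / 2 : ℝ) • (x + min ε 1 • (x - q)) +
          (1 / 2 : ℝ) • (x + min ε 1 • (p - x)) := by module
      rw [e]; exact this
    obtain ⟨ε1, hε1, h1⟩ := aux p hp q hq
    obtain ⟨ε2, hε2, h2⟩ := aux q hq p hp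
    refine ⟨min ε1 ε2, by positivity, ?_, ?_⟩
    · exact shrink hFc hxF hε1 (by positivity) (min_le_left _ _) h1
    · rw [vsub_eq_sub, neg_sub]
      exact shrink hFc hxF hε2 (by positivity) (min_le_right _ _) h2
  | zero => exact ⟨1, one_pos, by simpa using hxF, by simpa using hxF⟩
  | add v w _ _ hv hw =>
    obtain ⟨ε1, hε1, a1, b1⟩ := hv
    obtain ⟨ε2, hε2, a2, b2⟩ := hw
    have c1 := shrink hFc hxF hε1 (by positivity) (min_le_left ε1 ε2) a1
    have c2 := shrink hFc hxF hε2 (by positivity) (min_le_right ε1 ε2) a2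
    have d1 := shrink hFc hxF hε1 (by positivity) (min_le_left ε1 ε2) b1
    have d2 := shrink hFc hxF hε2 (by positivity) (min_le_right ε1 ε2) b2
    refine ⟨min ε1 ε2 / 2, by positivity, ?_, ?_⟩
    · have := hFc c1 c2 (by norm_num : (0 : ℝ) ≤ 1 / 2) (by norm_num : (0 : ℝ) ≤ 1 / 2) (by norm_num)
      have e : x + (min ε1 ε2 / 2) • (v + w) = (1 / 2 : ℝ) • (x + min ε1 ε2 • v) +
          (1 / 2 : ℝ) • (x + min ε1 ε2 • w) := by module
      rw [e]; exact this
    · have := hFc d1 d2 (by norm_num : (0 : ℝ) ≤ 1 / 2) (by norm_num : (0 : ℝ) ≤ 1 / 2) (by norm_num)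
      have e : x + (min ε1 ε2 / 2) • (-(v + w)) = (1 / 2 : ℝ) • (x + min ε1 ε2 • (-v)) +
          (1 / 2 : ℝ) • (x + min ε1 ε2 • (-w)) := by module
      rw [e]; exact this
  | smul c v _ hv =>
    obtain ⟨ε, hε, a, b⟩ := hv
    rcases lt_trichotomy c 0 with hc | hc | hc
    · refine ⟨ε / (-c), div_pos hε (by linarith), ?_, ?_⟩
      · have : (ε / (-c)) • (c • v) = ε • (-v) := by
          rw [smul_smul, div_mul_eq_mul_div, mul_div_assoc, div_neg, div_self hc.ne]; module
        rw [this]; exact b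
      · have : (ε / (-c)) • (-(c • v)) = ε • v := by
          rw [smul_neg, smul_smul, div_mul_eq_mul_div, mul_div_assoc, div_neg, div_self hc.ne]
          module
        rw [this]; exact a
    · subst hc
      exact ⟨1, one_pos, by simpa using hxF, by simpa using hxF⟩
    · refine ⟨ε / c, div_pos hε hc, ?_, ?_⟩
      · rw [smul_smul, div_mul_cancel₀ _ hc.ne']; exact a
      · rw [smul_neg, smul_smul, div_mul_cancel₀ _ hc.ne', ← smul_neg]; exact b

/-- at an extreme point of a fibre, the map is injective on the minimal face -/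
theorem inj_of_extreme_fibre {E' : Type*} [AddCommGroup E'] [Module ℝ E'] (f : E →ₗ[ℝ] E')
    {P : Set E} (hP : Convex ℝ P) {x : E} (hx : x ∈ (P ∩ {q | f q = f x}).extremePoints ℝ) {v : E}
    (hv : v ∈ vectorSpan ℝ (minFace P x)) (hfv : f v = 0) : v = 0 := by
  obtain ⟨ε, hε, h1, h2⟩ := minFace_relint hP hx.1.1 hv
  have hseg : x ∈ openSegment ℝ (x + ε • v) (x + ε • (-v)) :=
    ⟨1 / 2, 1 / 2, by norm_num, by norm_num, by norm_num, by module⟩
  have := hx.2 ⟨h1.1, by simp [hfv]⟩ ⟨h2.1, by simp [hfv]⟩ hseg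
  have h3 : ε • v = 0 := by simpa using this
  rcases smul_eq_zero.1 h3 with h | h
  · exact absurd h hε.ne'
  · exact h

/-- a face of a polytope is the hull of the vertices it contains -/
theorem face_eq_hull (X : Finset E) {F : Set E} (hF : IsExtreme ℝ (convexHull ℝ (X : Set E)) F)
    (hFc : Convex ℝ F) : F = convexHull ℝ (F ∩ X) := by
  classical
  apply Set.Subset.antisymm
  · intro z hz
    have hzX := hF.subset hz
    rw [Finset.mem_convexHull'] at hzX
    obtain ⟨w, hw0, hw1, hwz⟩ := hzX
    have hmem : ∀ x ∈ X, 0 < w x → x ∈ F := by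
      intro x hx hwx
      rcases (Finset.single_le_sum hw0 hx).eq_or_lt with h | h
      · -- w x = 1
        rw [hw1] at h
        have h0 : ∀ y ∈ X, y ≠ x → w y = 0 := by
          intro y hy hyx
          have h1 : w x + ∑ y ∈ X.erase x, w y = 1 := by rw [Finset.add_sum_erase X w hx, hw1]
          have h2 : ∑ y ∈ X.erase x, w y = 0 := by linarith
          exact (Finset.sum_eq_zero_iff_of_nonneg
            (fun y hy => hw0 y (Finset.mem_of_mem_erase hy))).1 h2 y (Finset.mem_erase.2 ⟨hyx, hy⟩)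
        have h3 : z = x := by
          rw [← hwz, Finset.sum_eq_single x, h, one_smul]
          · intro y hy hyx; rw [h0 y hy hyx, zero_smul]
          · intro h; exact absurd hx h
        rw [← h3]; exact hz
      · rw [hw1] at h
        set r := (1 - w x)⁻¹ • (z - w x • x) with hr
        have h1 : 0 < 1 - w x := by linarith
        have hrP : r ∈ convexHull ℝ (X : Set E) := by
          rw [Finset.mem_convexHull']
          refine ⟨fun y => if y = x then 0 else (1 - w x)⁻¹ * w y, ?_, ?_, ?_⟩
          · intro y hy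
            show 0 ≤ if y = x then 0 else (1 - w x)⁻¹ * w y
            split_ifs
            · exact le_rfl
            · exact mul_nonneg (by positivity) (hw0 y hy)
          · rw [← Finset.add_sum_erase X _ hx, if_pos rfl, zero_add]
            have : ∀ y ∈ X.erase x, (if y = x then 0 else (1 - w x)⁻¹ * w y) =
                (1 - w x)⁻¹ * w y := fun y hy => if_neg (Finset.ne_of_mem_erase hy)
            rw [Finset.sum_congr rfl this, ← Finset.mul_sum]
            have h4 : ∑ y ∈ X.erase x, w y = 1 - w x := by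
              have := Finset.add_sum_erase X w hx
              linarith
            rw [h4, inv_mul_cancel₀ h1.ne']
          · rw [← Finset.add_sum_erase X _ hx]
            show (if x = x then (0 : ℝ) else (1 - w x)⁻¹ * w x) • x +
              ∑ y ∈ X.erase x, (if y = x then 0 else (1 - w x)⁻¹ * w y) • y = r
            rw [if_pos rfl, zero_smul, zero_add]
            have : ∀ y ∈ X.erase x, (if y = x then 0 else (1 - w x)⁻¹ * w y) • y =
                (1 - w x)⁻¹ • (w y • y) := fun y hy => by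
              rw [if_neg (Finset.ne_of_mem_erase hy), mul_smul]
            rw [Finset.sum_congr rfl this, ← Finset.smul_sum, hr]
            congr 1
            have := Finset.add_sum_erase X (fun y => w y • y) hx
            rw [hwz] at this
            rw [← this]; abel
        have hseg : z ∈ openSegment ℝ x r := by
          refine ⟨w x, 1 - w x, hwx, h1, by ring, ?_⟩
          rw [hr, smul_smul, mul_inv_cancel₀ h1.ne', one_smul]; abel
        exact hF.left_mem_of_mem_openSegment (subset_convexHull ℝ _ hx) hrP hz hseg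
    have hfil : (F ∩ (X : Set E)) = ((X.filter (fun x => x ∈ F) : Finset E) : Set E) := by
      ext x; simp [and_comm]
    rw [hfil, Finset.mem_convexHull']
    refine ⟨w, fun x hx => hw0 x (Finset.mem_filter.1 hx).1, ?_, ?_⟩
    · rw [← hw1]
      apply Finset.sum_subset (Finset.filter_subset _ _)
      intro x hx hx'
      rcases (hw0 x hx).eq_or_lt with h | h
      · exact h.symm
      · exact absurd (Finset.mem_filter.2 ⟨hx, hmem x hx h⟩) hx'
    · rw [← hwz]
      apply Finset.sum_subset (Finset.filter_subset _ _)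
      intro x hx hx'
      rcases (hw0 x hx).eq_or_lt with h | h
      · rw [← h, zero_smul]
      · exact absurd (Finset.mem_filter.2 ⟨hx, hmem x hx h⟩) hx'
  · exact convexHull_min inter_subset_left hFc

/-- a polytope has finitely many faces -/
theorem finite_faces (X : Finset E) :
    {F : Set E | IsExtreme ℝ (convexHull ℝ (X : Set E)) F ∧ Convex ℝ F}.Finite := by
  classical
  have h : {F : Set E | IsExtreme ℝ (convexHull ℝ (X : Set E)) F ∧ Convex ℝ F} ⊆
      (fun Y : Finset E => convexHull ℝ (Y : Set E)) '' (X.powerset : Set (Finset E)) := by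
    rintro F ⟨h1, h2⟩
    refine ⟨X.filter (fun x => x ∈ F), by
      rw [Finset.mem_coe, Finset.mem_powerset]; exact Finset.filter_subset _ _, ?_⟩
    have : ((X.filter (fun x => x ∈ F) : Finset E) : Set E) = F ∩ X := by
      ext x; simp [and_comm]
    show convexHull ℝ ((X.filter (fun x => x ∈ F) : Finset E) : Set E) = F
    rw [this]
    exact (face_eq_hull X h1 h2).symm
  exact (X.powerset.finite_toSet.image _).subset h

end Pool.Agent.H884R2.Zeta
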