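import Mathlib
import Pool.Agent.H884R2.Zeta.Minor
import Pool.Agent.H884R2.Zeta.Faces

set_option autoImplicit false

open Set MeasureTheory Filter
open scoped ENNReal Topology

namespace Pool.Agent.H884R2.Zeta

variable {d : ℕ}

/-- the image of a low-dimensional set is null -/
theorem volume_image_zero {k : ℕ} (ι : Fin k → Fin d) {F : Set (Eu d)}
    (h : Module.finrank ℝ (vectorSpan ℝ F) < k) : volume (cp ι '' F) = 0 := by
  rcases F.eq_empty_or_nonempty with rfl | ⟨x0, hx0⟩
  · simp
  set W' := (vectorSpan ℝ F).map (cp ι) with hW'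
  have hsub : cp ι '' F ⊆ (AffineSubspace.mk' (cp ι x0) W' : Set (Eu k)) := by
    rintro _ ⟨x, hx, rfl⟩
    rw [SetLike.mem_coe, AffineSubspace.mem_mk', vsub_eq_sub, ← map_sub]
    exact Submodule.mem_map_of_mem (vsub_mem_vectorSpan ℝ hx hx0)
  refine measure_mono_null hsub (Measure.addHaar_affineSubspace _ _ ?_)
  intro htop
  have h1 : W' = ⊤ := by
    have := congrArg AffineSubspace.direction htop
    rwa [AffineSubspace.direction_mk', AffineSubspace.direction_top] at this
  have h2 : Module.finrank ℝ W' ≤ Module.finrank ℝ (vectorSpan ℝ F) :=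
    Submodule.finrank_map_le _ _
  rw [h1, finrank_top, finrank_euclideanSpace_fin] at h2
  omega

theorem finrank_le_of_inj {k : ℕ} (ι : Fin k → Fin d) {F : Set (Eu d)}
    (h : ∀ w ∈ vectorSpan ℝ F, cp ι w = 0 → w = 0) :
    Module.finrank ℝ (vectorSpan ℝ F) ≤ k := by
  let L : vectorSpan ℝ F →ₗ[ℝ] Eu k := (cp ι).comp (vectorSpan ℝ F).subtype
  have hL : Function.Injective L := by
    rw [← LinearMap.ker_eq_bot, LinearMap.ker_eq_bot']
    intro w hw
    exact Subtype.ext (h w.1 w.2 hw)
  have := LinearMap.finrank_le_finrank_of_injective hL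
  rwa [finrank_euclideanSpace_fin] at this

theorem finite_faces' {P : Set (Eu d)} (hP : ∃ X : Finset (Eu d), P = convexHull ℝ (X : Set (Eu d)))
    (k : ℕ) : (faces P k).Finite := by
  obtain ⟨X, rfl⟩ := hP
  exact (finite_faces X).subset fun F hF => ⟨hF.1, hF.2.1⟩

theorem polytope_convex {P : Set (Eu d)}
    (hP : ∃ X : Finset (Eu d), P = convexHull ℝ (X : Set (Eu d))) : Convex ℝ P := by
  obtain ⟨X, rfl⟩ := hP
  exact convex_convexHull ℝ _

theorem polytope_compact {P : Set (Eu d)}
    (hP : ∃ X : Finset (Eu d), P = convexHull ℝ (X : Set (Eu d))) : IsCompact P := by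
  obtain ⟨X, rfl⟩ := hP
  exact Set.Finite.isCompact_convexHull (𝕜 := ℝ) X.finite_toSet

/-- every point of a coordinate projection comes from a point in a face of small dimension -/
theorem exists_low_face {k : ℕ} (ι : Fin k → Fin d) {P : Set (Eu d)} (hPc : Convex ℝ P)
    (hPk : IsCompact P) {z : Eu k} (hz : z ∈ cp ι '' P) :
    ∃ F : Set (Eu d), IsExtreme ℝ P F ∧ Convex ℝ F ∧ F.Nonempty ∧
      (∀ w ∈ vectorSpan ℝ F, cp ι w = 0 → w = 0) ∧ z ∈ cp ι '' F := by
  obtain ⟨x0, hx0, rfl⟩ := hz
  have hcl : IsClosed {q : Eu d | cp ι q = cp ι x0} :=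
    isClosed_eq (continuous_cp ι) continuous_const
  obtain ⟨x, hx⟩ := (hPk.inter_right hcl).extremePoints_nonempty ⟨x0, hx0, rfl⟩
  have hxz : cp ι x = cp ι x0 := hx.1.2
  refine ⟨minFace P x, minFace_extreme hPc, minFace_convex hPc hx.1.1,
    ⟨x, self_mem_minFace hx.1.1⟩, ?_, x, self_mem_minFace hx.1.1, hxz⟩
  intro w hw hw0
  refine inj_of_extreme_fibre (cp ι) hPc ?_ hw hw0
  rw [hxz]; exact hx

/-- the `k`-content is at least the volume of a projection to `k` coordinates -/
theorem volume_cp_le {k : ℕ} {ι : Fin k → Fin d} (hι : Function.Injective ι) {P : Set (Eu d)}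
    (hP : ∃ X : Finset (Eu d), P = convexHull ℝ (X : Set (Eu d))) :
    volume (cp ι '' P) ≤ content k P := by
  have hPc := polytope_convex hP
  have hPk := polytope_compact hP
  have hfin := finite_faces' hP k
  have hlow : {F : Set (Eu d) | (IsExtreme ℝ P F ∧ Convex ℝ F) ∧
      Module.finrank ℝ (vectorSpan ℝ F) < k}.Finite := by
    obtain ⟨X, rfl⟩ := hP
    exact (finite_faces X).subset fun F hF => hF.1
  have hsub : cp ι '' P ⊆ (⋃ F : faces P k, cp ι '' (F : Set (Eu d))) ∪
      ⋃ F ∈ {F : Set (Eu d) | (IsExtreme ℝ P F ∧ Convex ℝ F) ∧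
      Module.finrank ℝ (vectorSpan ℝ F) < k}, cp ι '' F := by
    intro z hz
    obtain ⟨F, h1, h2, h3, h4, h5⟩ := exists_low_face ι hPc hPk hz
    rcases (finrank_le_of_inj ι h4).eq_or_lt with h | h
    · left
      exact Set.mem_iUnion.2 ⟨⟨F, h1, h2, h3, h⟩, h5⟩
    · right
      exact Set.mem_biUnion (show F ∈ _ from ⟨⟨h1, h2⟩, h⟩) h5
  have : Countable (faces P k) := hfin.countable.to_subtype
  calc volume (cp ι '' P) ≤ volume ((⋃ F : faces P k, cp ι '' (F : Set (Eu d))) ∪
      ⋃ F ∈ {F : Set (Eu d) | (IsExtreme ℝ P F ∧ Convex ℝ F) ∧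
      Module.finrank ℝ (vectorSpan ℝ F) < k}, cp ι '' F) := measure_mono hsub
    _ ≤ volume (⋃ F : faces P k, cp ι '' (F : Set (Eu d))) + volume
      (⋃ F ∈ {F : Set (Eu d) | (IsExtreme ℝ P F ∧ Convex ℝ F) ∧
      Module.finrank ℝ (vectorSpan ℝ F) < k}, cp ι '' F) := measure_union_le _ _
    _ = volume (⋃ F : faces P k, cp ι '' (F : Set (Eu d))) + 0 := by
      rw [(measure_biUnion_null_iff hlow.countable).2 fun F hF => volume_image_zero ι hF.2]
    _ ≤ ∑' F : faces P k, volume (cp ι '' (F : Set (Eu d))) := by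
      rw [add_zero]; exact measure_iUnion_le _
    _ ≤ content k P := by
      refine ENNReal.tsum_le_tsum fun F => ?_
      have := image_measure_le (lipschitz_cp hι) k (F : Set (Eu d))
      rw [EuclideanSpace.euclideanHausdorffMeasure_eq_volume] at this
      simpa using this

/-- upper bound for the content by the coordinate projections -/
theorem content_le (X : Finset (Eu d)) (k : ℕ) (β : ℝ≥0∞)
    (hβ : ∀ ι : Fin k → Fin d, Function.Injective ι →
      volume (cp ι '' convexHull ℝ (X : Set (Eu d))) ≤ β) :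
    content k (convexHull ℝ (X : Set (Eu d))) ≤
      (2 ^ X.card : ℕ) * (((d * k : ℕ) : ℝ≥0∞) ^ k * β) := by
  classical
  set P := convexHull ℝ (X : Set (Eu d)) with hP
  have hfin := finite_faces' (P := P) ⟨X, rfl⟩ k
  have := hfin.fintype
  unfold content
  rw [tsum_fintype]
  have h1 : ∀ F : faces P k, Measure.euclideanHausdorffMeasure k (F : Set (Eu d)) ≤
      ((d * k : ℕ) : ℝ≥0∞) ^ k * β := by
    intro F
    obtain ⟨ι, hι, -, h2⟩ := face_measure_le F.2.2.2.2
    refine h2.trans ?_
    gcongr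
    exact (measure_mono (Set.image_mono F.2.1.subset)).trans (hβ ι hι)
  refine (Finset.sum_le_card_nsmul _ _ _ fun F _ => h1 F).trans ?_
  rw [nsmul_eq_mul]
  gcongr
  rw [Finset.card_univ]
  have h3 : Fintype.card (faces P k) ≤ X.powerset.card := by
    rw [← Finset.card_univ]
    refine Finset.card_le_card_of_injOn (fun F => X.filter (fun x => x ∈ (F : Set (Eu d)))) ?_ ?_
    · intro F _
      rw [Finset.mem_coe, Finset.mem_powerset]
      exact Finset.filter_subset _ _
    · intro F _ G _ hFG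
      apply Subtype.ext
      rw [face_eq_hull X F.2.1 F.2.2.1, face_eq_hull X G.2.1 G.2.2.1]
      congr 1
      ext x
      have := Finset.ext_iff.1 hFG x
      simp only [Finset.mem_filter] at this
      simp only [Set.mem_inter_iff, Finset.mem_coe]
      tauto
  rwa [Finset.card_powerset] at h3

theorem content_lt_top {P : Set (Eu d)}
    (hP : ∃ X : Finset (Eu d), P = convexHull ℝ (X : Set (Eu d))) (k : ℕ) :
    content k P < ⊤ := by
  classical
  obtain ⟨X, rfl⟩ := hP
  set P := convexHull ℝ (X : Set (Eu d)) with hP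
  have hPk : IsCompact P := polytope_compact ⟨X, rfl⟩
  have h1 : ∀ ι : Fin k → Fin d, volume (cp ι '' P) < ⊤ :=
    fun ι => (hPk.image (continuous_cp ι)).measure_lt_top
  refine lt_of_le_of_lt (content_le X k (∑ ι : Fin k → Fin d, volume (cp ι '' P)) ?_) ?_
  · intro ι _
    exact Finset.single_le_sum (f := fun ι => volume (cp ι '' P)) (fun _ _ => by positivity)
      (Finset.mem_univ ι)
  · refine ENNReal.mul_lt_top (ENNReal.natCast_lt_top _) (ENNReal.mul_lt_top
      (ENNReal.pow_lt_top (ENNReal.natCast_lt_top _)) ?_)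
    exact ENNReal.sum_lt_top.2 fun ι _ => h1 ι

end Pool.Agent.H884R2.Zeta
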