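import Mathlib
import Pool.Agent.H884R2.Zeta.Fat
import Pool.Agent.H884R2.Zeta.Skel

set_option autoImplicit false

open Set MeasureTheory Filter
open scoped ENNReal Topology

namespace Pool.Agent.H884R2.Zeta

variable {d : ℕ}

/-- the vertices of the simplex with vertices `0` and `w i • e_i` -/
noncomputable def spx (w : Fin d → ℝ) : Finset (Eu d) := by
  classical exact insert 0 (Finset.univ.image (fun i => w i • ev i))

theorem spx_card (w : Fin d → ℝ) : (spx w).card ≤ d + 1 := by
  classical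
  unfold spx
  refine (Finset.card_insert_le _ _).trans ?_
  gcongr
  exact Finset.card_image_le.trans (by simp)

theorem mem_spx {w : Fin d → ℝ} {x : Eu d} : x ∈ spx w ↔ x = 0 ∨ ∃ i, w i • ev i = x := by
  classical
  unfold spx
  simp

theorem spx_sub {w : Fin d → ℝ} (hw : ∀ i, 0 ≤ w i) :
    convexHull ℝ (spx w : Set (Eu d)) ⊆ {x | ∀ i, 0 ≤ x i ∧ x i ≤ w i} := by
  apply convexHull_min
  · intro x hx i
    rcases mem_spx.1 (Finset.mem_coe.1 hx) with rfl | ⟨j, rfl⟩
    · exact ⟨le_rfl, hw i⟩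
    · rw [PiLp.smul_apply]
      by_cases hij : i = j
      · subst hij; rw [ev_same]; simp [hw i]
      · rw [ev_ne hij]; simp [hw i]
  · intro x hx y hy a b ha hb hab i
    rw [PiLp.add_apply, PiLp.smul_apply, PiLp.smul_apply, smul_eq_mul, smul_eq_mul]
    obtain ⟨h1, h2⟩ := hx i
    obtain ⟨h3, h4⟩ := hy i
    refine ⟨by positivity, ?_⟩
    calc a * x i + b * y i ≤ a * w i + b * w i := by gcongr
      _ = w i := by rw [← add_mul, hab, one_mul]

theorem sub_spx (hd : 0 < d) {w : Fin d → ℝ} (hw : ∀ i, 0 < w i) :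
    {x | ∀ i, 0 ≤ x i ∧ x i ≤ w i / d} ⊆ convexHull ℝ (spx w : Set (Eu d)) := by
  intro x hx
  have hd' : (0 : ℝ) < d := by exact_mod_cast hd
  have h := star_sum (convex_convexHull ℝ (spx w : Set (Eu d))) (x := 0)
    (subset_convexHull ℝ _ (mem_spx.2 (Or.inl rfl))) (fun i => w i • ev i)
    (fun j => by
      rw [zero_add]
      exact subset_convexHull ℝ _ (mem_spx.2 (Or.inr ⟨j, rfl⟩)))
    (fun i => x i / w i) (fun i => div_nonneg (hx i).1 (hw i).le) ?_
  · rw [zero_add] at h
    have e : ∑ j, (x j / w j) • w j • ev j = x := by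
      ext i
      have : ∀ j, (x j / w j) • w j • ev j = (x j • ev j : Eu d) := by
        intro j
        rw [smul_smul, div_mul_cancel₀ _ (hw j).ne']
      simp_rw [this]
      simp [ev, Finset.sum_apply, Pi.single_apply]
    rwa [e] at h
  · calc ∑ j, x j / w j ≤ ∑ _j : Fin d, (1 : ℝ) / d := by
          refine Finset.sum_le_sum fun j _ => ?_
          rw [div_le_div_iff₀ (hw j) hd']
          have := (hx j).2
          rw [le_div_iff₀ hd'] at this
          linarith
      _ = 1 := by simp [hd'.ne']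

theorem spx_interior (hd : 0 < d) {w : Fin d → ℝ} (hw : ∀ i, 0 < w i) :
    (interior (convexHull ℝ (spx w : Set (Eu d)))).Nonempty := by
  have hd' : (0 : ℝ) < d := by exact_mod_cast hd
  have ho : IsOpen {x : Eu d | ∀ i, 0 < x i ∧ x i < w i / d} := by
    have : {x : Eu d | ∀ i, 0 < x i ∧ x i < w i / d} =
        ⋂ i, (fun x : Eu d => x i) ⁻¹' (Set.Ioo 0 (w i / d)) := by
      ext x; simp
    rw [this]
    exact isOpen_iInter_of_finite fun i => isOpen_Ioo.preimage (by fun_prop)
  refine ⟨WithLp.toLp 2 (fun i => w i / d / 2), ?_⟩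
  have hsub : {x : Eu d | ∀ i, 0 < x i ∧ x i < w i / d} ⊆ convexHull ℝ (spx w : Set (Eu d)) :=
    fun x hx => sub_spx hd hw fun i => ⟨(hx i).1.le, (hx i).2.le⟩
  refine interior_maximal hsub ho ?_
  intro i
  have := hw i
  have h1 : 0 < w i / d := by positivity
  constructor
  · show 0 < w i / d / 2
    positivity
  · show w i / d / 2 < w i / d
    linarith

theorem spx_polytope (hd : 0 < d) {w : Fin d → ℝ} (hw : ∀ i, 0 < w i) :
    IsPolytope (convexHull ℝ (spx w : Set (Eu d))) :=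
  ⟨⟨_, rfl⟩, spx_interior hd hw⟩

theorem spx_proj_le {k : ℕ} (ι : Fin k → Fin d) {w : Fin d → ℝ} (hw : ∀ i, 0 ≤ w i) :
    volume (cp ι '' convexHull ℝ (spx w : Set (Eu d))) ≤ ∏ j, ENNReal.ofReal (w (ι j)) := by
  rw [← box_volume]
  apply measure_mono
  rintro _ ⟨x, hx, rfl⟩ j
  exact spx_sub hw hx (ι j)

theorem spx_proj_sup {k : ℕ} (hd : 0 < d) {ι : Fin k → Fin d} (hι : Function.Injective ι)
    {w : Fin d → ℝ} (hw : ∀ i, 0 < w i) :
    {y : Eu k | ∀ j, 0 ≤ y j ∧ y j ≤ w (ι j) / d} ⊆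
      cp ι '' convexHull ℝ (spx w : Set (Eu d)) := by
  classical
  intro y hy
  refine ⟨WithLp.toLp 2 (fun i => if h : ∃ j, ι j = i then y h.choose else 0),
    sub_spx hd hw ?_, ?_⟩
  · intro i
    show 0 ≤ (if h : ∃ j, ι j = i then y h.choose else 0) ∧
      (if h : ∃ j, ι j = i then y h.choose else 0) ≤ w i / d
    split_ifs with h
    · have h1 := hy h.choose
      rw [h.choose_spec] at h1
      exact h1
    · have := (hw i).le
      exact ⟨le_rfl, by positivity⟩
  · ext j
    rw [cp_apply]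
    show (if h : ∃ j', ι j' = ι j then y h.choose else 0) = y j
    have h : ∃ j', ι j' = ι j := ⟨j, rfl⟩
    rw [dif_pos h, hι h.choose_spec]

/-- the weights of the thin simplices -/
noncomputable def wt (m : ℕ) (δ : ℝ) (i : Fin (m + 2)) : ℝ := if i.1 < m then 1 else δ

theorem wt_pos {m : ℕ} {δ : ℝ} (hδ : 0 < δ) (i : Fin (m + 2)) : 0 < wt m δ i := by
  unfold wt; split_ifs <;> linarith

theorem wt_le {m : ℕ} {δ : ℝ} (hδ : δ ≤ 1) (i : Fin (m + 2)) : wt m δ i ≤ 1 := by
  unfold wt; split_ifs <;> linarith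

theorem prod_wt_le {m k : ℕ} {δ : ℝ} (hδ : δ ≤ 1) (ι : Fin k → Fin (m + 2)) :
    ∏ j, ENNReal.ofReal (wt m δ (ι j)) ≤ 1 := by
  refine Finset.prod_le_one (fun _ _ => by positivity) fun j _ => ?_
  rw [← ENNReal.ofReal_one]
  exact ENNReal.ofReal_le_ofReal (wt_le hδ _)

theorem prod_wt_le' {m k : ℕ} (hk : m < k) {δ : ℝ} (hδ : δ ≤ 1) {ι : Fin k → Fin (m + 2)}
    (hι : Function.Injective ι) :
    ∏ j, ENNReal.ofReal (wt m δ (ι j)) ≤ ENNReal.ofReal δ := by
  have hex : ∃ j, ¬ (ι j).1 < m := by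
    by_contra hcon
    push Not at hcon
    let g : Fin k → Fin m := fun j => ⟨(ι j).1, hcon j⟩
    have hg : Function.Injective g := by
      intro a b hab
      apply hι
      exact Fin.ext (by simpa [g] using congrArg Fin.val hab)
    have := Fintype.card_le_of_injective g hg
    simp at this
    omega
  obtain ⟨j, hj⟩ := hex
  rw [← Finset.mul_prod_erase Finset.univ _ (Finset.mem_univ j)]
  have h1 : wt m δ (ι j) = δ := by unfold wt; rw [if_neg hj]
  rw [h1]
  refine mul_le_of_le_one_right (by positivity) ?_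
  refine Finset.prod_le_one (fun _ _ => by positivity) fun j _ => ?_
  rw [← ENNReal.ofReal_one]
  exact ENNReal.ofReal_le_ofReal (wt_le hδ _)

/-- upper bounds for the contents of the thin simplices -/
theorem spx_content (m : ℕ) : ∃ C : ℝ, 0 < C ∧ ∀ δ : ℝ, 0 < δ → δ ≤ 1 → ∀ k, k ≤ m + 2 →
    content k (convexHull ℝ (spx (wt m δ) : Set (Eu (m + 2)))) ≤ ENNReal.ofReal C ∧
    (m < k → content k (convexHull ℝ (spx (wt m δ) : Set (Eu (m + 2)))) ≤
      ENNReal.ofReal (C * δ)) := by
  refine ⟨((2 ^ (m + 3) * ((m + 2) * (m + 2)) ^ (m + 2) : ℕ) : ℝ), by positivity, ?_⟩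
  intro δ hδ hδ1 k hk
  have hgen : ∀ β : ℝ, 0 ≤ β → (∀ ι : Fin k → Fin (m + 2), Function.Injective ι →
      volume (cp ι '' convexHull ℝ (spx (wt m δ) : Set (Eu (m + 2)))) ≤ ENNReal.ofReal β) →
      content k (convexHull ℝ (spx (wt m δ) : Set (Eu (m + 2)))) ≤
        ENNReal.ofReal (((2 ^ (m + 3) * ((m + 2) * (m + 2)) ^ (m + 2) : ℕ) : ℝ) * β) := by
    intro β hβ h
    refine (content_le (spx (wt m δ)) k (ENNReal.ofReal β) h).trans ?_
    rw [ENNReal.ofReal_mul (by positivity), ENNReal.ofReal_natCast, ← mul_assoc]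
    gcongr
    have h1 : 2 ^ (spx (wt m δ)).card * ((m + 2) * k) ^ k ≤
        2 ^ (m + 3) * ((m + 2) * (m + 2)) ^ (m + 2) := by
      have h2 := spx_card (wt m δ)
      have h3 : ((m + 2) * k) ^ k ≤ ((m + 2) * (m + 2)) ^ (m + 2) := by
        calc ((m + 2) * k) ^ k ≤ ((m + 2) * (m + 2)) ^ k := by gcongr
          _ ≤ ((m + 2) * (m + 2)) ^ (m + 2) := Nat.pow_le_pow_right (by positivity) hk
      gcongr
      norm_num
    exact_mod_cast h1
  constructor
  · have := hgen 1 (by norm_num) (fun ι _ => by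
      rw [ENNReal.ofReal_one]
      exact (spx_proj_le ι (fun i => (wt_pos hδ i).le)).trans (prod_wt_le hδ1 ι))
    rwa [mul_one] at this
  · intro hmk
    exact hgen δ hδ.le (fun ι hι =>
      (spx_proj_le ι (fun i => (wt_pos hδ i).le)).trans (prod_wt_le' hmk hδ1 hι))

/-- the top-dimensional content is the volume -/
theorem content_top_le {P : Set (Eu d)} : content d P ≤ volume P := by
  classical
  have huniq : ∀ F ∈ faces P d, F = P := by
    rintro F ⟨h1, h2, h3, h4⟩
    have htop : vectorSpan ℝ F = ⊤ := by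
      apply Submodule.eq_top_of_finrank_eq
      rw [h4, finrank_euclideanSpace_fin]
    have haff : affineSpan ℝ F = ⊤ :=
      (AffineSubspace.affineSpan_eq_top_iff_vectorSpan_eq_top_of_nonempty ℝ (Eu d) (Eu d) h3).2 htop
    obtain ⟨y, hy⟩ := h2.interior_nonempty_iff_affineSpan_eq_top.2 haff
    apply h1.subset.antisymm
    intro x hx
    have hc : Tendsto (fun ε : ℝ => y + ε • (y - x)) (𝓝 0) (𝓝 y) := by
      have : Continuous fun ε : ℝ => y + ε • (y - x) := by fun_prop
      simpa using this.tendsto 0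
    have hev := hc.eventually (mem_interior_iff_mem_nhds.1 hy)
    obtain ⟨ε, hε, hεF⟩ : ∃ ε : ℝ, 0 < ε ∧ y + ε • (y - x) ∈ F := by
      obtain ⟨η, hη, h⟩ := Metric.eventually_nhds_iff.1 hev
      exact ⟨η / 2, by positivity, h (by rw [Real.dist_eq, sub_zero, abs_of_pos (by positivity)]; linarith)⟩
    have hseg : y ∈ openSegment ℝ x (y + ε • (y - x)) := by
      refine ⟨ε / (1 + ε), 1 / (1 + ε), by positivity, by positivity,
        by field_simp; ring, ?_⟩
      have h1 : (1 + ε) • ((ε / (1 + ε)) • x + (1 / (1 + ε)) • (y + ε • (y - x))) =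
          (1 + ε) • y := by
        rw [smul_add, smul_smul, smul_smul, mul_one_div_cancel (by positivity : (1 + ε) ≠ 0),
          mul_div_cancel₀ _ (by positivity : (1 + ε) ≠ 0)]
        module
      exact smul_right_injective _ (by positivity : (1 + ε) ≠ 0) h1
    exact h1.left_mem_of_mem_openSegment hx (h1.subset hεF) (interior_subset hy) hseg
  unfold content
  have hsub : Subsingleton (faces P d) :=
    ⟨fun F G => Subtype.ext ((huniq F F.2).trans (huniq G G.2).symm)⟩
  rcases isEmpty_or_nonempty (faces P d) with h | ⟨⟨F⟩⟩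
  · simp
  · rw [tsum_eq_single F (fun G hG => absurd (Subsingleton.elim G F) hG),
      EuclideanSpace.euclideanHausdorffMeasure_eq_volume, huniq F F.2]

theorem cp_id (P : Set (Eu d)) : cp (id : Fin d → Fin d) '' P = P := by
  have : ∀ x : Eu d, cp (id : Fin d → Fin d) x = x := fun x => by ext j; rfl
  simp [this]

end Pool.Agent.H884R2.Zeta
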