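import Mathlib

set_option autoImplicit false

open Set

namespace Pool.Agent.H884R2.Zeta

/-! ### Davenport-Schinzel type counting -/

section DS

variable {ι A : Type*}

theorem ds_next (S : Finset ι) (f : ι → ℝ) (i : ι) (hi : ∃ j ∈ S, f i < f j) :
    ∃ k ∈ S, f i < f k ∧ ∀ j ∈ S, f i < f j → f k ≤ f j := by
  classical
  obtain ⟨j, hj, hij⟩ := hi
  obtain ⟨k, hk, hmin⟩ := Finset.exists_min_image (S.filter (fun j => f i < f j)) f
    ⟨j, Finset.mem_filter.2 ⟨hj, hij⟩⟩
  rw [Finset.mem_filter] at hk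
  exact ⟨k, hk.1, hk.2, fun j hj hij => hmin j (Finset.mem_filter.2 ⟨hj, hij⟩)⟩

/-- one label: number of non-maximal elements at which the label changes -/
theorem ds_one [DecidableEq A] (S T : Finset ι) (f : ι → ℝ) (hf : Set.InjOn f S) (nxt : ι → ι)
    (hTS : T ⊆ S)
    (hnxt : ∀ i ∈ T, nxt i ∈ S ∧ f i < f (nxt i) ∧ ∀ j ∈ S, f i < f j → f (nxt i) ≤ f j)
    (a : ι → A) (A1 : Finset A) (ha : ∀ i ∈ S, a i ∈ A1) (hT : ∀ i ∈ T, a i ≠ a (nxt i))
    (hca : ∀ i ∈ S, ∀ j ∈ S, ∀ k ∈ S, ∀ l ∈ S, f i < f j → f j < f k → f k < f l →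
      a i = a k → a j = a l → a i = a j) : T.card ≤ 2 * A1.card := by
  classical
  set L := T.filter (fun i => ∀ j ∈ S, f i < f j → a j ≠ a i) with hL
  set N := T.filter (fun i => ∀ j ∈ S, f j < f (nxt i) → a j ≠ a (nxt i)) with hN
  have h1 : T ⊆ L ∪ N := by
    intro i hi
    rw [Finset.mem_union, hL, hN, Finset.mem_filter, Finset.mem_filter]
    by_contra hc
    rw [not_or] at hc
    obtain ⟨hc1, hc2⟩ := hc
    push Not at hc1 hc2
    obtain ⟨l, hl, hil, hal⟩ := hc1 hi
    obtain ⟨m, hm, hmi, ham⟩ := hc2 hi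
    obtain ⟨n1, n2, n3⟩ := hnxt i hi
    have hlt : f (nxt i) < f l := by
      rcases (n3 l hl hil).eq_or_lt with h | h
      · exfalso
        have := hf n1 hl h
        rw [← this] at hal
        exact hT i hi hal.symm
      · exact h
    have hmlt : f m < f i := by
      by_contra hc
      push Not at hc
      rcases hc.eq_or_lt with h | h
      · have := hf (hTS hi) hm h
        rw [← this] at ham
        exact hT i hi ham
      · exact absurd (n3 m hm h) (not_le.2 hmi)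
    have := hca m hm i (hTS hi) (nxt i) n1 l hl hmlt n2 hlt ham hal.symm
    rw [ham] at this
    exact hT i hi this.symm
  have h2 : L.card ≤ A1.card := by
    apply Finset.card_le_card_of_injOn a
    · intro i hi
      exact ha i (hTS (Finset.mem_filter.1 hi).1)
    · intro i hi j hj hij
      by_contra hne
      have hi' := Finset.mem_filter.1 hi
      have hj' := Finset.mem_filter.1 hj
      rcases lt_trichotomy (f i) (f j) with h | h | h
      · exact hi'.2 j (hTS hj'.1) h hij.symm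
      · exact hne (hf (hTS hi'.1) (hTS hj'.1) h)
      · exact hj'.2 i (hTS hi'.1) h hij
  have h3 : N.card ≤ A1.card := by
    apply Finset.card_le_card_of_injOn (fun i => a (nxt i))
    · intro i hi
      exact ha _ (hnxt i (Finset.mem_filter.1 hi).1).1
    · intro i hi j hj hij
      by_contra hne
      have hi' := Finset.mem_filter.1 hi
      have hj' := Finset.mem_filter.1 hj
      have ni := hnxt i hi'.1
      have nj := hnxt j hj'.1
      rcases lt_trichotomy (f i) (f j) with h | h | h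
      · have h5 := ni.2.2 j (hTS hj'.1) h
        exact hj'.2 (nxt i) ni.1 (lt_of_le_of_lt h5 nj.2.1) hij
      · exact hne (hf (hTS hi'.1) (hTS hj'.1) h)
      · have h5 := nj.2.2 i (hTS hi'.1) h
        exact hi'.2 (nxt j) nj.1 (lt_of_le_of_lt h5 ni.2.1) hij.symm
  calc T.card ≤ (L ∪ N).card := Finset.card_le_card h1
    _ ≤ L.card + N.card := Finset.card_union_le _ _
    _ ≤ 2 * A1.card := by omega

theorem ds (S : Finset ι) (f : ι → ℝ) (hf : Set.InjOn f S) (a b : ι → A) (A1 A2 : Finset A)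
    (ha : ∀ i ∈ S, a i ∈ A1) (hb : ∀ i ∈ S, b i ∈ A2)
    (hne : ∀ i ∈ S, ∀ j ∈ S, a i = a j → b i = b j → i = j)
    (hca : ∀ i ∈ S, ∀ j ∈ S, ∀ k ∈ S, ∀ l ∈ S, f i < f j → f j < f k → f k < f l →
      a i = a k → a j = a l → a i = a j)
    (hcb : ∀ i ∈ S, ∀ j ∈ S, ∀ k ∈ S, ∀ l ∈ S, f i < f j → f j < f k → f k < f l →
      b i = b k → b j = b l → b i = b j) : S.card ≤ 2 * A1.card + 2 * A2.card + 1 := by
  classical
  rcases S.eq_empty_or_nonempty with rfl | hSne
  · simp
  obtain ⟨m, hm, hmax⟩ := Finset.exists_max_image S f hSne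
  set T := S.erase m with hTdef
  have hTS : T ⊆ S := Finset.erase_subset _ _
  have hex : ∀ i ∈ T, ∃ k ∈ S, f i < f k ∧ ∀ j ∈ S, f i < f j → f k ≤ f j := by
    intro i hi
    apply ds_next
    refine ⟨m, hm, lt_of_le_of_ne (hmax i (hTS hi)) ?_⟩
    intro h
    exact (Finset.mem_erase.1 hi).1 (hf (hTS hi) hm h)
  choose! nxt hn1 hn2 hn3 using hex
  set Ta := T.filter (fun i => a i ≠ a (nxt i)) with hTa
  set Tb := T.filter (fun i => b i ≠ b (nxt i)) with hTb
  have h1 : T ⊆ Ta ∪ Tb := by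
    intro i hi
    rw [Finset.mem_union, hTa, hTb, Finset.mem_filter, Finset.mem_filter]
    by_contra hc
    rw [not_or] at hc
    obtain ⟨hc1, hc2⟩ := hc
    push Not at hc1 hc2
    have := hne i (hTS hi) (nxt i) (hn1 i hi) (hc1 hi) (hc2 hi)
    have h2 := hn2 i hi
    rw [← this] at h2
    exact lt_irrefl _ h2
  have h2 : Ta.card ≤ 2 * A1.card := by
    refine ds_one S Ta f hf nxt ((Finset.filter_subset _ _).trans hTS) ?_ a A1 ha ?_ hca
    · intro i hi
      have hi' := (Finset.mem_filter.1 hi).1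
      exact ⟨hn1 i hi', hn2 i hi', hn3 i hi'⟩
    · intro i hi
      exact (Finset.mem_filter.1 hi).2
  have h3 : Tb.card ≤ 2 * A2.card := by
    refine ds_one S Tb f hf nxt ((Finset.filter_subset _ _).trans hTS) ?_ b A2 hb ?_ hcb
    · intro i hi
      have hi' := (Finset.mem_filter.1 hi).1
      exact ⟨hn1 i hi', hn2 i hi', hn3 i hi'⟩
    · intro i hi
      exact (Finset.mem_filter.1 hi).2
  have h4 : T.card + 1 = S.card := Finset.card_erase_add_one hm
  have h5 := Finset.card_le_card h1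
  have h6 := Finset.card_union_le Ta Tb
  omega

end DS

/-! ### Planar sections of three-dimensional polytopes -/

variable {E : Type*} [AddCommGroup E] [Module ℝ E]

theorem helper {B : Set E} (hB : Convex ℝ B) (s : E →ₗ[ℝ] ℝ) {c : ℝ} {x y b p p2 p4 z : E}
    (hx : x ∈ B) (hy : y ∈ B.extremePoints ℝ) (hxy : x ≠ y) (hb : b ∈ B)
    (hp : p ∈ (B ∩ {q | s q = c}).extremePoints ℝ)
    (hp2 : p2 ∈ B ∩ {q | s q = c}) (hp4 : p4 ∈ B ∩ {q | s q = c}) (hpp2 : p ≠ p2) (hpp4 : p ≠ p4)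
    (hsx : c < s x)
    {μ : ℝ} (hμ0 : 0 < μ) (hμ1 : μ < 1) (hpμ : p = (1 - μ) • x + μ • b)
    {α : ℝ} (hα0 : 0 < α) (hα1 : α ≤ 1) (hz : z = α • x + (1 - α) • p)
    {β β2 β4 : ℝ} (hβ : 0 < β) (hβ2 : 0 ≤ β2) (hβ4 : 0 ≤ β4) (hsum : β + β2 + β4 = 1)
    (hz' : z = β • y + β2 • p2 + β4 • p4) : False := by
  have hpB : p ∈ B := hp.1.1
  have hps : s p = c := hp.1.2
  -- p is a proper combination of z and b
  have hD : 0 < (1 - μ) + α * μ := by nlinarith
  set ν := (1 - μ) / ((1 - μ) + α * μ) with hν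
  have hν0 : 0 < ν := div_pos (by linarith) hD
  have hν1 : ν < 1 := by
    rw [hν, div_lt_one hD]; nlinarith
  have hpz : p = ν • z + (1 - ν) • b := by
    have h1 : ((1 - μ) + α * μ) • p = (1 - μ) • z + (α * μ) • b := by
      rw [hz]
      have : μ • b = p - (1 - μ) • x := by rw [hpμ]; abel
      have h3 : (α * μ) • b = α • (p - (1 - μ) • x) := by rw [mul_smul, this]
      rw [h3]
      module
    have h2 : 1 - ν = (α * μ) / ((1 - μ) + α * μ) := by
      rw [hν, eq_div_iff hD.ne', sub_mul, one_mul, div_mul_cancel₀ _ hD.ne']; ring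
    rw [h2, hν, div_eq_inv_mul, div_eq_inv_mul, mul_smul, mul_smul, ← smul_add, ← h1, smul_smul,
      inv_mul_cancel₀ hD.ne', one_smul]
  have hνz : p = (ν * β) • y + (ν * β2) • p2 + (ν * β4) • p4 + (1 - ν) • b := by
    rw [hpz, hz']
    module
  -- β2 = 0
  have key : ∀ (q r : E) (γ δ : ℝ), q ∈ B ∩ {q | s q = c} → r ∈ B ∩ {q | s q = c} → p ≠ q → 0 ≤ γ →
      0 ≤ δ → β + γ + δ = 1 → p = (ν * β) • y + (ν * γ) • q + (ν * δ) • r + (1 - ν) • b → γ = 0 := by
    intro q r γ δ hq hr hpq hγ hδ hs heq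
    by_contra hne
    have hγ' : 0 < γ := lt_of_le_of_ne hγ (Ne.symm hne)
    have hw : 0 < 1 - ν * γ := by
      have : ν * γ < 1 := by
        have : γ ≤ 1 := by linarith
        nlinarith
      linarith
    set w := (1 - ν * γ)⁻¹ • ((ν * β) • y + (ν * δ) • r + (1 - ν) • b) with hw'
    have hwB : w ∈ B := by
      have h1 : w = ((1 - ν * γ)⁻¹ * (ν * β)) • y + (((1 - ν * γ)⁻¹ * (ν * δ)) • r +
          ((1 - ν * γ)⁻¹ * (1 - ν)) • b) := by
        rw [hw']; module
      have hnn : 0 ≤ (1 - ν * γ)⁻¹ := by positivity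
      rw [h1]
      have := hB.sum_mem (t := Finset.univ) (w := ![(1 - ν * γ)⁻¹ * (ν * β),
        (1 - ν * γ)⁻¹ * (ν * δ), (1 - ν * γ)⁻¹ * (1 - ν)]) (z := ![y, r, b]) ?_ ?_ ?_
      · simpa [Fin.sum_univ_three, add_assoc] using this
      · intro i _
        fin_cases i
        · exact mul_nonneg hnn (by positivity)
        · exact mul_nonneg hnn (by positivity)
        · exact mul_nonneg hnn (by linarith)
      · simp [Fin.sum_univ_three]
        rw [← mul_add, ← mul_add, inv_mul_eq_div, div_eq_one_iff_eq hw.ne']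
        have : δ = 1 - β - γ := by linarith
        rw [this]; ring
      · intro i _
        fin_cases i
        · exact hy.1
        · exact hr.1
        · exact hb
    have hpw : p = (ν * γ) • q + (1 - ν * γ) • w := by
      rw [hw', smul_smul, mul_inv_cancel₀ hw.ne', one_smul]
      nth_rewrite 1 [heq]
      abel
    have hsw : s w = c := by
      have h2 := congrArg s hpw
      rw [map_add, map_smul, map_smul, hps, hq.2, smul_eq_mul, smul_eq_mul] at h2
      have h3 : (1 - ν * γ) * (s w - c) = 0 := by linarith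
      rcases mul_eq_zero.1 h3 with h4 | h4
      · exact absurd h4 hw.ne'
      · linarith
    have hseg : p ∈ openSegment ℝ q w :=
      ⟨ν * γ, 1 - ν * γ, by positivity, hw, by ring, hpw.symm⟩
    exact hpq (hp.2 hq ⟨hwB, hsw⟩ hseg).symm
  have e2 : β2 = 0 := key p2 p4 β2 β4 hp2 hp4 hpp2 hβ2 hβ4 hsum hνz
  have e4 : β4 = 0 := by
    refine key p4 p2 β4 β2 hp4 hp2 hpp4 hβ4 hβ2 (by linarith) ?_
    rw [hνz]
    abel
  have e1 : β = 1 := by linarith
  have hzy : z = y := by rw [hz', e2, e4, e1]; simp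
  have hxp : x ≠ p := by
    rintro rfl
    linarith
  rcases hα1.eq_or_lt with h | h
  · rw [h] at hz
    simp only [one_smul, sub_self, zero_smul, add_zero] at hz
    exact hxy (hz.symm.trans hzy)
  · have hseg : y ∈ openSegment ℝ x p := ⟨α, 1 - α, hα0, by linarith, by ring, by rw [← hz, hzy]⟩
    exact hxy (hy.2 hx hpB hseg)

/-- there is a first zero of four affine functions -/
theorem first_zero {a1 a2 a3 a4 d1 d2 d3 d4 : ℝ} (h1 : 0 < a1) (h2 : 0 < a2) (h3 : 0 < a3)
    (h4 : 0 < a4) (hd : 0 < d1 + d3) : ∃ η : ℝ, 0 < η ∧ 0 ≤ a1 - η * d1 ∧ 0 ≤ a2 - η * d2 ∧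
      0 ≤ a3 - η * d3 ∧ 0 ≤ a4 - η * d4 ∧
      (a1 - η * d1 = 0 ∨ a2 - η * d2 = 0 ∨ a3 - η * d3 = 0 ∨ a4 - η * d4 = 0) := by
  set m := max (max (d1 / a1) (d2 / a2)) (max (d3 / a3) (d4 / a4)) with hm
  have m1 : d1 / a1 ≤ m := (le_max_left _ _).trans (le_max_left _ _)
  have m2 : d2 / a2 ≤ m := (le_max_right _ _).trans (le_max_left _ _)
  have m3 : d3 / a3 ≤ m := (le_max_left _ _).trans (le_max_right _ _)
  have m4 : d4 / a4 ≤ m := (le_max_right _ _).trans (le_max_right _ _)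
  have hmpos : 0 < m := by
    by_cases h : 0 < d1
    · exact lt_of_lt_of_le (div_pos h h1) m1
    · have : 0 < d3 := by linarith
      exact lt_of_lt_of_le (div_pos this h3) m3
  have aux : ∀ {a d : ℝ}, 0 < a → d / a ≤ m → 0 ≤ a - m⁻¹ * d := by
    intro a d ha h
    rw [div_le_iff₀ ha] at h
    have : m⁻¹ * d ≤ m⁻¹ * (m * a) := mul_le_mul_of_nonneg_left h (by positivity)
    rw [← mul_assoc, inv_mul_cancel₀ hmpos.ne', one_mul] at this
    linarith
  have aux2 : ∀ {a d : ℝ}, 0 < a → m = d / a → a - m⁻¹ * d = 0 := by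
    intro a d ha h
    have : d = m * a := by rw [h]; field_simp
    rw [this, ← mul_assoc, inv_mul_cancel₀ hmpos.ne', one_mul, sub_self]
  refine ⟨m⁻¹, by positivity, aux h1 m1, aux h2 m2, aux h3 m3, aux h4 m4, ?_⟩
  rcases max_choice (max (d1 / a1) (d2 / a2)) (max (d3 / a3) (d4 / a4)) with h | h
  · rcases max_choice (d1 / a1) (d2 / a2) with h' | h'
    · left; exact aux2 h1 (by rw [hm, h, h'])
    · right; left; exact aux2 h2 (by rw [hm, h, h'])
  · rcases max_choice (d3 / a3) (d4 / a4) with h' | h'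
    · right; right; left; exact aux2 h3 (by rw [hm, h, h'])
    · right; right; right; exact aux2 h4 (by rw [hm, h, h'])

theorem mem_openSegment_iff' {x b p : E} (h : p ∈ openSegment ℝ x b) :
    ∃ μ : ℝ, 0 < μ ∧ μ < 1 ∧ p = (1 - μ) • x + μ • b := by
  obtain ⟨a, c, ha, hc, hac, hp⟩ := h
  exact ⟨c, hc, by linarith, by rw [← hp]; congr 2; linarith⟩

theorem noncross {B : Set E} (hB : Convex ℝ B) (s u v : E →ₗ[ℝ] ℝ) {c : ℝ}
    (hinj : ∀ p ∈ B, ∀ q ∈ B, s p = s q → u p = u q → v p = v q → p = q)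
    {x y b1 b2 b3 b4 p1 p2 p3 p4 : E}
    (hx : x ∈ B.extremePoints ℝ) (hy : y ∈ B.extremePoints ℝ) (hxy : x ≠ y)
    (hb1 : b1 ∈ B) (hb2 : b2 ∈ B) (hb3 : b3 ∈ B) (hb4 : b4 ∈ B)
    (hsx : c < s x) (hsy : c < s y)
    (h1 : p1 ∈ openSegment ℝ x b1) (h3 : p3 ∈ openSegment ℝ x b3)
    (h2 : p2 ∈ openSegment ℝ y b2) (h4 : p4 ∈ openSegment ℝ y b4)
    (e1 : p1 ∈ (B ∩ {q | s q = c}).extremePoints ℝ) (e2 : p2 ∈ (B ∩ {q | s q = c}).extremePoints ℝ)
    (e3 : p3 ∈ (B ∩ {q | s q = c}).extremePoints ℝ) (e4 : p4 ∈ (B ∩ {q | s q = c}).extremePoints ℝ)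
    (n12 : p1 ≠ p2) (n14 : p1 ≠ p4) (n32 : p3 ≠ p2) (n34 : p3 ≠ p4)
    {t r : ℝ} (ht0 : 0 < t) (ht1 : t < 1) (hr0 : 0 < r) (hr1 : r < 1)
    (ho : (1 - t) • p1 + t • p3 = (1 - r) • p2 + r • p4)
    (hdet : (u p3 - u p1) * (v p4 - v p2) - (v p3 - v p1) * (u p4 - u p2) ≠ 0) : False := by
  set o := (1 - t) • p1 + t • p3 with hodef
  set hx' := s x - c with hx'def
  set hy' := s y - c with hy'def
  have hhx : 0 < hx' := by rw [hx'def]; linarith
  have hhy : 0 < hy' := by rw [hy'def]; linarith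
  set D := (u p3 - u p1) * (v p4 - v p2) - (v p3 - v p1) * (u p4 - u p2) with hD
  set A := (u x - u o) / hx' - (u y - u o) / hy' with hA
  set A' := (v x - v o) / hx' - (v y - v o) / hy' with hA'
  set k := (A' * (u p4 - u p2) - A * (v p4 - v p2)) / D with hk
  set k' := (A' * (u p3 - u p1) - A * (v p3 - v p1)) / D with hk'
  have eqA : k' * (u p4 - u p2) - k * (u p3 - u p1) = A := by
    rw [hk, hk', div_mul_eq_mul_div, div_mul_eq_mul_div, ← sub_div, div_eq_iff hdet, hD]; ring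
  have eqA' : k' * (v p4 - v p2) - k * (v p3 - v p1) = A' := by
    rw [hk, hk', div_mul_eq_mul_div, div_mul_eq_mul_div, ← sub_div, div_eq_iff hdet, hD]; ring
  have hsum : 0 < ((1 - t) / hx' + k) + (t / hx' - k) := by
    have : ((1 - t) / hx' + k) + (t / hx' - k) = 1 / hx' := by ring
    rw [this]; positivity
  obtain ⟨η, hη, f1, f2, f3, f4, hzero⟩ := first_zero (a1 := 1 - t) (a2 := 1 - r) (a3 := t)
    (a4 := r) (d1 := (1 - t) / hx' + k) (d2 := (1 - r) / hy' + k') (d3 := t / hx' - k)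
    (d4 := r / hy' - k') (by linarith) (by linarith) ht0 hr0 hsum
  have hα1 : η / hx' ≤ 1 := by
    have : 1 - η / hx' = ((1 - t) - η * ((1 - t) / hx' + k)) + (t - η * (t / hx' - k)) := by
      field_simp; ring
    linarith
  have hβ1 : η / hy' ≤ 1 := by
    have : 1 - η / hy' = ((1 - r) - η * ((1 - r) / hy' + k')) + (r - η * (r / hy' - k')) := by
      field_simp; ring
    linarith
  have hα0 : 0 < η / hx' := by positivity
  have hβ0 : 0 < η / hy' := by positivity
  set w1 := (1 - t) - η * ((1 - t) / hx' + k) with hw1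
  set w3 := t - η * (t / hx' - k) with hw3
  set w2 := (1 - r) - η * ((1 - r) / hy' + k') with hw2
  set w4 := r - η * (r / hy' - k') with hw4
  have sum1 : η / hx' + w1 + w3 = 1 := by rw [hw1, hw3]; field_simp; ring
  have sum2 : η / hy' + w2 + w4 = 1 := by rw [hw2, hw4]; field_simp; ring
  set z := (η / hx') • x + w1 • p1 + w3 • p3 with hz
  set z' := (η / hy') • y + w2 • p2 + w4 • p4 with hz'
  have conv3 : ∀ {a b c : ℝ} {p q r : E}, 0 ≤ a → 0 ≤ b → 0 ≤ c → a + b + c = 1 → p ∈ B → q ∈ B →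
      r ∈ B → a • p + b • q + c • r ∈ B := by
    intro a b c p q r ha hb hc habc hp hq hr
    have := hB.sum_mem (t := Finset.univ) (w := ![a, b, c]) (z := ![p, q, r]) ?_ ?_ ?_
    · simpa [Fin.sum_univ_three] using this
    · intro i _; fin_cases i <;> assumption
    · simpa [Fin.sum_univ_three] using habc
    · intro i _; fin_cases i <;> assumption
  have hzB : z ∈ B := conv3 hα0.le f1 f3 sum1 hx.1 e1.1.1 e3.1.1
  have hzB' : z' ∈ B := conv3 hβ0.le f2 f4 sum2 hy.1 e2.1.1 e4.1.1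
  have s1 : s p1 = c := e1.1.2
  have s2 : s p2 = c := e2.1.2
  have s3 : s p3 = c := e3.1.2
  have s4 : s p4 = c := e4.1.2
  have uo : u o = (1 - t) * u p1 + t * u p3 := by rw [hodef]; simp
  have uo' : u o = (1 - r) * u p2 + r * u p4 := by rw [ho]; simp
  have vo : v o = (1 - t) * v p1 + t * v p3 := by rw [hodef]; simp
  have vo' : v o = (1 - r) * v p2 + r * v p4 := by rw [ho]; simp
  have hzz : z = z' := by
    apply hinj z hzB z' hzB'
    · rw [hz, hz']
      simp only [map_add, map_smul, smul_eq_mul, s1, s2, s3, s4]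
      have e5 : s x = c + hx' := by rw [hx'def]; ring
      have e6 : s y = c + hy' := by rw [hy'def]; ring
      have e7 : w1 = 1 - η / hx' - w3 := by linarith
      have e8 : w2 = 1 - η / hy' - w4 := by linarith
      rw [e5, e6, e7, e8]
      field_simp
      ring
    · rw [hz, hz']
      simp only [map_add, map_smul, smul_eq_mul]
      have l1 : η / hx' * u x + w1 * u p1 + w3 * u p3 = u o + η * ((u x - u o) / hx') +
          η * k * (u p3 - u p1) := by
        rw [hw1, hw3, uo]; field_simp; ring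
      have l2 : η / hy' * u y + w2 * u p2 + w4 * u p4 = u o + η * ((u y - u o) / hy') +
          η * k' * (u p4 - u p2) := by
        rw [hw2, hw4, uo']; field_simp; ring
      rw [l1, l2]
      have : η * (k' * (u p4 - u p2) - k * (u p3 - u p1)) = η * A := by rw [eqA]
      rw [hA] at this
      linarith
    · rw [hz, hz']
      simp only [map_add, map_smul, smul_eq_mul]
      have l1 : η / hx' * v x + w1 * v p1 + w3 * v p3 = v o + η * ((v x - v o) / hx') +
          η * k * (v p3 - v p1) := by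
        rw [hw1, hw3, vo]; field_simp; ring
      have l2 : η / hy' * v y + w2 * v p2 + w4 * v p4 = v o + η * ((v y - v o) / hy') +
          η * k' * (v p4 - v p2) := by
        rw [hw2, hw4, vo']; field_simp; ring
      rw [l1, l2]
      have : η * (k' * (v p4 - v p2) - k * (v p3 - v p1)) = η * A' := by rw [eqA']
      rw [hA'] at this
      linarith
  obtain ⟨μ1, m10, m11, m1⟩ := mem_openSegment_iff' h1
  obtain ⟨μ2, m20, m21, m2⟩ := mem_openSegment_iff' h2
  obtain ⟨μ3, m30, m31, m3⟩ := mem_openSegment_iff' h3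
  obtain ⟨μ4, m40, m41, m4⟩ := mem_openSegment_iff' h4
  rcases hzero with h | h | h | h
  · -- w1 = 0
    refine helper hB s hx.1 hy hxy hb3 e3 e2.1 e4.1 n32 n34 hsx m30 m31 m3 hα0 hα1 (z := z) ?_ hβ0
      f2 f4 sum2 (hzz.trans hz')
    have : w3 = 1 - η / hx' := by linarith
    rw [hz, h, this]; simp
  · refine helper hB s hy.1 hx hxy.symm hb4 e4 e1.1 e3.1 n14.symm n34.symm hsy m40 m41 m4 hβ0 hβ1
      (z := z') ?_ hα0 f1 f3 sum1 (hzz.symm.trans hz)
    have : w4 = 1 - η / hy' := by linarith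
    rw [hz', h, this]; simp
  · refine helper hB s hx.1 hy hxy hb1 e1 e2.1 e4.1 n12 n14 hsx m10 m11 m1 hα0 hα1 (z := z) ?_ hβ0
      f2 f4 sum2 (hzz.trans hz')
    have : w1 = 1 - η / hx' := by linarith
    rw [hz, h, this]; simp
  · refine helper hB s hy.1 hx hxy.symm hb2 e2 e1.1 e3.1 n12.symm n32.symm hsy m20 m21 m2 hβ0 hβ1
      (z := z') ?_ hα0 f1 f3 sum1 (hzz.symm.trans hz)
    have : w2 = 1 - η / hy' := by linarith
    rw [hz', h, this]; simp

end Pool.Agent.H884R2.Zeta
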