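import Mathlib
import Pool.Agent.H884R2.Zeta.Section

set_option autoImplicit false

open Set

namespace Pool.Agent.H884R2.Zeta

variable {E : Type*} [AddCommGroup E] [Module ℝ E]

/-- an extreme point of a section which is not a vertex lies on a segment crossing the section -/
theorem exists_crossing (X : Finset E) (s : E →ₗ[ℝ] ℝ) {c : ℝ} {p : E}
    (hp : p ∈ (convexHull ℝ (X : Set E) ∩ {q | s q = c}).extremePoints ℝ) (hpX : p ∉ X) :
    ∃ a ∈ X, ∃ b ∈ X, c < s a ∧ s b < c ∧ p ∈ openSegment ℝ a b := by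
  classical
  have hpB := hp.1.1
  have hps : s p = c := hp.1.2
  rw [Finset.mem_convexHull'] at hpB
  obtain ⟨w, hw0, hw1, hwp⟩ := hpB
  -- the points of X in the plane
  have hY : p ∉ convexHull ℝ ((X.filter (fun x => s x = c) : Finset E) : Set E) := by
    intro hY
    have hsub : convexHull ℝ ((X.filter (fun x => s x = c) : Finset E) : Set E) ⊆
        convexHull ℝ (X : Set E) ∩ {q | s q = c} := by
      apply convexHull_min
      · intro x hx
        rw [Finset.mem_coe, Finset.mem_filter] at hx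
        exact ⟨subset_convexHull ℝ _ hx.1, hx.2⟩
      · exact (convex_convexHull ℝ _).inter (convex_hyperplane s.isLinear c)
    have h1 := inter_extremePoints_subset_extremePoints_of_subset hsub ⟨hY, hp⟩
    have h2 := extremePoints_convexHull_subset h1
    rw [Finset.mem_coe, Finset.mem_filter] at h2
    exact hpX h2.1
  have hex : ∃ x ∈ X, 0 < w x ∧ s x ≠ c := by
    by_contra hc
    push Not at hc
    apply hY
    rw [Finset.mem_convexHull']
    refine ⟨w, fun x hx => hw0 x (Finset.mem_filter.1 hx).1, ?_, ?_⟩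
    · rw [← hw1]
      apply Finset.sum_subset (Finset.filter_subset _ _)
      intro x hx hx'
      rcases (hw0 x hx).eq_or_lt with h | h
      · exact h.symm
      · exact absurd (Finset.mem_filter.2 ⟨hx, hc x hx h⟩) hx'
    · rw [← hwp]
      apply Finset.sum_subset (Finset.filter_subset _ _)
      intro x hx hx'
      rcases (hw0 x hx).eq_or_lt with h | h
      · rw [← h, zero_smul]
      · exact absurd (Finset.mem_filter.2 ⟨hx, hc x hx h⟩) hx'
  have hzero : ∑ x ∈ X, w x * (s x - c) = 0 := by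
    have h1 : ∑ x ∈ X, w x * (s x - c) = ∑ x ∈ X, w x * s x - (∑ x ∈ X, w x) * c := by
      rw [Finset.sum_mul, ← Finset.sum_sub_distrib]
      exact Finset.sum_congr rfl fun x _ => by ring
    have h2 : ∑ x ∈ X, w x * s x = s p := by
      rw [← hwp, map_sum]
      exact Finset.sum_congr rfl fun x _ => by rw [map_smul, smul_eq_mul]
    rw [h1, h2, hw1, hps, one_mul, sub_self]
  have hboth : (∃ a ∈ X, 0 < w a ∧ c < s a) ∧ ∃ b ∈ X, 0 < w b ∧ s b < c := by
    obtain ⟨x, hx, hwx, hsx⟩ := hex
    constructor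
    · by_contra hc
      push Not at hc
      have hle : ∀ y ∈ X, w y * (s y - c) ≤ 0 := by
        intro y hy
        rcases (hw0 y hy).eq_or_lt with h | h
        · rw [← h, zero_mul]
        · exact mul_nonpos_of_nonneg_of_nonpos h.le (by linarith [hc y hy h])
      have hlt : w x * (s x - c) < 0 := by
        have h3 : s x < c := lt_of_le_of_ne (hc x hx hwx) hsx
        exact mul_neg_of_pos_of_neg hwx (by linarith)
      have := Finset.sum_lt_sum hle ⟨x, hx, hlt⟩
      rw [hzero, Finset.sum_const_zero] at this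
      exact lt_irrefl _ this
    · by_contra hc
      push Not at hc
      have hle : ∀ y ∈ X, 0 ≤ w y * (s y - c) := by
        intro y hy
        rcases (hw0 y hy).eq_or_lt with h | h
        · rw [← h, zero_mul]
        · exact mul_nonneg h.le (by linarith [hc y hy h])
      have hlt : 0 < w x * (s x - c) := by
        have h3 : c < s x := lt_of_le_of_ne (hc x hx hwx) hsx.symm
        exact mul_pos hwx (by linarith)
      have := Finset.sum_lt_sum hle ⟨x, hx, hlt⟩
      rw [hzero, Finset.sum_const_zero] at this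
      exact lt_irrefl _ this
  obtain ⟨⟨a, ha, hwa, hsa⟩, b, hb, hwb, hsb⟩ := hboth
  have hab : a ≠ b := by rintro rfl; linarith
  refine ⟨a, ha, b, hb, hsa, hsb, ?_⟩
  have hden : 0 < s a - s b := by linarith
  set μ := (s a - c) / (s a - s b) with hμ
  have hμ0 : 0 < μ := div_pos (by linarith) hden
  have hμ1 : μ < 1 := by rw [hμ, div_lt_one hden]; linarith
  set q := (1 - μ) • a + μ • b with hq
  have hqs : s q = c := by
    rw [hq, map_add, map_smul, map_smul, smul_eq_mul, smul_eq_mul]
    have : μ * (s a - s b) = s a - c := by rw [hμ]; field_simp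
    linarith
  have hqseg : q ∈ openSegment ℝ a b := ⟨1 - μ, μ, by linarith, hμ0, by ring, rfl⟩
  have hqB : q ∈ convexHull ℝ (X : Set E) :=
    (convex_convexHull ℝ _).openSegment_subset (subset_convexHull ℝ _ ha) (subset_convexHull ℝ _ hb)
      hqseg
  -- p is a combination of q and a rest
  set ε := min (w a) (w b) / 2 with hε
  have hε0 : 0 < ε := by rw [hε]; positivity
  have hεa : ε * (1 - μ) < w a := by
    have h1 : ε ≤ w a / 2 := by rw [hε]; linarith [min_le_left (w a) (w b)]
    nlinarith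
  have hεb : ε * μ < w b := by
    have h1 : ε ≤ w b / 2 := by rw [hε]; linarith [min_le_right (w a) (w b)]
    nlinarith
  have hwa1 : w a ≤ 1 := by
    rw [← hw1]
    exact Finset.single_le_sum hw0 ha
  have hε1 : ε < 1 := by
    have h1 : ε ≤ w a / 2 := by rw [hε]; linarith [min_le_left (w a) (w b)]
    linarith
  set r := (1 - ε)⁻¹ • (p - ε • q) with hr
  have hpqr : p = ε • q + (1 - ε) • r := by
    rw [hr, smul_smul, mul_inv_cancel₀ (by linarith : (1 - ε) ≠ 0), one_smul]; abel
  have hrB : r ∈ convexHull ℝ (X : Set E) := by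
    rw [Finset.mem_convexHull']
    have hinv : 0 ≤ (1 - ε)⁻¹ := inv_nonneg.2 (by linarith)
    refine ⟨fun x => (1 - ε)⁻¹ * (w x - ε * ((if x = a then (1 - μ) else 0) +
      (if x = b then μ else 0))), ?_, ?_, ?_⟩
    · intro x hx
      apply mul_nonneg hinv
      by_cases hxa : x = a
      · subst hxa
        rw [if_pos rfl, if_neg hab]
        linarith
      · rw [if_neg hxa]
        by_cases hxb : x = b
        · subst hxb
          rw [if_pos rfl]
          linarith
        · rw [if_neg hxb]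
          linarith [hw0 x hx]
    · rw [← Finset.mul_sum, Finset.sum_sub_distrib, ← Finset.mul_sum, Finset.sum_add_distrib, hw1,
        Finset.sum_ite_eq' X a, Finset.sum_ite_eq' X b, if_pos ha, if_pos hb]
      have : (1 - ε) ≠ 0 := by linarith
      field_simp
      ring
    · simp_rw [mul_smul, sub_smul, mul_smul, add_smul]
      rw [← Finset.smul_sum, Finset.sum_sub_distrib, ← Finset.smul_sum, Finset.sum_add_distrib, hwp]
      simp_rw [ite_smul, zero_smul]
      rw [Finset.sum_ite_eq' X a, Finset.sum_ite_eq' X b, if_pos ha, if_pos hb]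
  have hrs : s r = c := by
    have h2 := congrArg s hpqr
    rw [map_add, map_smul, map_smul, hps, hqs, smul_eq_mul, smul_eq_mul] at h2
    have h3 : (1 - ε) * (s r - c) = 0 := by linarith
    rcases mul_eq_zero.1 h3 with h4 | h4
    · linarith
    · linarith
  have hseg : p ∈ openSegment ℝ q r := ⟨ε, 1 - ε, hε0, by linarith, by ring, hpqr.symm⟩
  have := hp.2 ⟨hqB, hqs⟩ ⟨hrB, hrs⟩ hseg
  rw [← this]
  exact hqseg

theorem crossing_unique (s : E →ₗ[ℝ] ℝ) {c : ℝ} {a b p q : E} (ha : c < s a) (hb : s b < c)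
    (hp : p ∈ openSegment ℝ a b) (hq : q ∈ openSegment ℝ a b) (hps : s p = c) (hqs : s q = c) :
    p = q := by
  obtain ⟨μ, -, -, rfl⟩ := mem_openSegment_iff' hp
  obtain ⟨ν, -, -, rfl⟩ := mem_openSegment_iff' hq
  simp only [map_add, map_smul, smul_eq_mul] at hps hqs
  have : (μ - ν) * (s a - s b) = 0 := by linarith
  rcases mul_eq_zero.1 this with h | h
  · have : μ = ν := by linarith
    rw [this]
  · linarith

/-- the bound for the upper chain -/
theorem chain_card (X : Finset E) (s u v : E →ₗ[ℝ] ℝ) {c : ℝ}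
    (hinj : ∀ p ∈ convexHull ℝ (X : Set E), ∀ q ∈ convexHull ℝ (X : Set E),
      s p = s q → u p = u q → v p = v q → p = q)
    (hX : ∀ x ∈ X, x ∈ (convexHull ℝ (X : Set E)).extremePoints ℝ) (T : Finset E)
    (hT : ∀ p ∈ T, p ∈ (convexHull ℝ (X : Set E) ∩ {q | s q = c}).extremePoints ℝ ∧ p ∉ X ∧
      ∀ q ∈ convexHull ℝ (X : Set E) ∩ {q | s q = c}, u q = u p → v q ≤ v p) :
    T.card ≤ 2 * X.card + 1 := by
  classical
  set B := convexHull ℝ (X : Set E) with hB
  have hBc : Convex ℝ B := convex_convexHull ℝ _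
  have huinj : Set.InjOn u T := by
    intro p hp q hq hpq
    obtain ⟨p1, -, p2⟩ := hT p hp
    obtain ⟨q1, -, q2⟩ := hT q hq
    have h1 := p2 q q1.1 hpq.symm
    have h2 := q2 p p1.1 hpq
    exact hinj p p1.1.1 q q1.1.1 (p1.1.2.trans q1.1.2.symm) hpq (le_antisymm h2 h1)
  have hcr : ∀ p ∈ T, ∃ ab : E × E, (ab.1 ∈ X ∧ c < s ab.1) ∧ (ab.2 ∈ X ∧ s ab.2 < c) ∧
      p ∈ openSegment ℝ ab.1 ab.2 := by
    intro p hp
    obtain ⟨a, ha, b, hb, h1, h2, h3⟩ := exists_crossing X s (hT p hp).1 (hT p hp).2.1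
    exact ⟨(a, b), ⟨ha, h1⟩, ⟨hb, h2⟩, h3⟩
  choose! ab hab1 hab2 hab3 using hcr
  set X1 := X.filter (fun x => c < s x) with hX1
  set X2 := X.filter (fun x => s x < c) with hX2
  -- crossing data for four points of the chain
  have four : ∀ p1 ∈ T, ∀ p2 ∈ T, ∀ p3 ∈ T, ∀ p4 ∈ T, u p1 < u p2 → u p2 < u p3 → u p3 < u p4 →
      ∃ t r : ℝ, 0 < t ∧ t < 1 ∧ 0 < r ∧ r < 1 ∧ (1 - t) • p1 + t • p3 = (1 - r) • p2 + r • p4 ∧
      (u p3 - u p1) * (v p4 - v p2) - (v p3 - v p1) * (u p4 - u p2) ≠ 0 := by
    intro p1 h1 p2 h2 p3 h3 p4 h4 h12 h23 h34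
    obtain ⟨a1, -, b1⟩ := hT p1 h1
    obtain ⟨a2, -, b2⟩ := hT p2 h2
    obtain ⟨a3, -, b3⟩ := hT p3 h3
    obtain ⟨a4, -, b4⟩ := hT p4 h4
    have hPc : Convex ℝ (B ∩ {q | s q = c}) := hBc.inter (convex_hyperplane s.isLinear c)
    -- p2 is above the chord p1 p3
    have above : ∀ p q r : E, p ∈ B ∩ {q | s q = c} → r ∈ B ∩ {q | s q = c} →
        q ∈ (B ∩ {q | s q = c}).extremePoints ℝ →
        (∀ q' ∈ B ∩ {q | s q = c}, u q' = u q → v q' ≤ v q) → u p < u q → u q < u r →
        (v q - v p) * (u r - u p) > (v r - v p) * (u q - u p) := by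
      intro p q r hp hr hq hq' hpq hqr
      set t := (u q - u p) / (u r - u p) with ht
      have hden : 0 < u r - u p := by linarith
      have ht0 : 0 < t := div_pos (by linarith) hden
      have ht1 : t < 1 := by rw [ht, div_lt_one hden]; linarith
      have htm : t * (u r - u p) = u q - u p := by rw [ht]; field_simp
      set m := (1 - t) • p + t • r with hm
      have hmseg : m ∈ openSegment ℝ p r := ⟨1 - t, t, by linarith, ht0, by ring, rfl⟩
      have hmP : m ∈ B ∩ {q | s q = c} := hPc.openSegment_subset hp hr hmseg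
      have hum : u m = u q := by
        rw [hm, map_add, map_smul, map_smul, smul_eq_mul, smul_eq_mul]; linarith
      have hvm : v m ≤ v q := hq' m hmP hum
      have hne : v m ≠ v q := by
        intro h
        have hmq : m = q := hinj m hmP.1 q hq.1.1 (hmP.2.trans hq.1.2.symm) hum h
        have := hq.2 hp hr (hmq ▸ hmseg)
        rw [this] at hpq
        exact lt_irrefl _ hpq
      have hlt : v m < v q := lt_of_le_of_ne hvm hne
      rw [hm, map_add, map_smul, map_smul, smul_eq_mul, smul_eq_mul] at hlt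
      have h5 : v p + t * (v r - v p) < v q := by linarith
      have h6 : (v q - v p) > t * (v r - v p) := by linarith
      calc (v r - v p) * (u q - u p) = (t * (v r - v p)) * (u r - u p) := by rw [← htm]; ring
        _ < (v q - v p) * (u r - u p) := by
          apply mul_lt_mul_of_pos_right h6 hden
    have A2 := above p1 p2 p3 a1.1 a3.1 a2 b2 h12 h23
    have A3 := above p2 p3 p4 a2.1 a4.1 a3 b3 h23 h34
    -- the determinant
    have hdet : (u p3 - u p1) * (v p4 - v p2) - (v p3 - v p1) * (u p4 - u p2) < 0 := by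
      -- slopes
      have g1 : 0 < u p2 - u p1 := by linarith
      have g2 : 0 < u p3 - u p2 := by linarith
      have g3 : 0 < u p4 - u p3 := by linarith
      -- A2: slope 12 > slope 13, equivalently slope 13 > slope 23
      have A2' : (v p3 - v p1) * (u p3 - u p2) > (v p3 - v p2) * (u p3 - u p1) := by nlinarith
      -- A3 : slope 23 > slope 24
      have k1 : (v p3 - v p2) * (u p4 - u p2) > (v p4 - v p2) * (u p3 - u p2) := A3
      have e1 : 0 < u p3 - u p1 := by linarith
      have e2 : 0 < u p4 - u p2 := by linarith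
      have s1 : (v p3 - v p1) / (u p3 - u p1) > (v p3 - v p2) / (u p3 - u p2) := by
        rw [gt_iff_lt, div_lt_div_iff₀ g2 e1]; exact A2'
      have s2 : (v p3 - v p2) / (u p3 - u p2) > (v p4 - v p2) / (u p4 - u p2) := by
        rw [gt_iff_lt, div_lt_div_iff₀ e2 g2]; exact k1
      have s3 : (v p4 - v p2) / (u p4 - u p2) < (v p3 - v p1) / (u p3 - u p1) := s2.trans s1
      rw [div_lt_div_iff₀ e2 e1] at s3
      linarith
    -- crossing point
    set D := (u p3 - u p1) * (v p4 - v p2) - (v p3 - v p1) * (u p4 - u p2) with hD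
    -- t and r by Cramer's rule: t (p3 - p1) - r (p4 - p2) = p2 - p1
    set t := ((u p2 - u p1) * (v p4 - v p2) - (v p2 - v p1) * (u p4 - u p2)) / D with ht
    set r := ((u p2 - u p1) * (v p3 - v p1) - (v p2 - v p1) * (u p3 - u p1)) / D with hr
    have eu : t * (u p3 - u p1) - r * (u p4 - u p2) = u p2 - u p1 := by
      rw [ht, hr, div_mul_eq_mul_div, div_mul_eq_mul_div, ← sub_div, div_eq_iff hdet.ne, hD]; ring
    have ev : t * (v p3 - v p1) - r * (v p4 - v p2) = v p2 - v p1 := by
      rw [ht, hr, div_mul_eq_mul_div, div_mul_eq_mul_div, ← sub_div, div_eq_iff hdet.ne, hD]; ring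
    have hr0 : 0 < r := by
      rw [hr]
      apply div_pos_of_neg_of_neg _ hdet
      linarith
    have ht1 : t < 1 := by
      have h5 : 1 - t = ((u p3 - u p2) * (v p4 - v p2) - (v p3 - v p2) * (u p4 - u p2)) / D := by
        rw [ht, eq_div_iff hdet.ne, sub_mul, div_mul_cancel₀ _ hdet.ne, hD]; ring
      have : 0 < 1 - t := by
        rw [h5]
        apply div_pos_of_neg_of_neg _ hdet
        linarith
      linarith
    have ht0 : 0 < t := by
      have h5 : t * (u p3 - u p1) = (u p2 - u p1) + r * (u p4 - u p2) := by linarith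
      have h6 : 0 < t * (u p3 - u p1) := by
        rw [h5]
        have : 0 < r * (u p4 - u p2) := mul_pos hr0 (by linarith)
        linarith
      exact pos_of_mul_pos_left h6 (by linarith)
    have hr1 : r < 1 := by
      have h5 : r * (u p4 - u p2) = t * (u p3 - u p1) - (u p2 - u p1) := by linarith
      have h6 : t * (u p3 - u p1) < u p3 - u p1 := by
        have : 0 < u p3 - u p1 := by linarith
        nlinarith
      have h7 : r * (u p4 - u p2) < 1 * (u p4 - u p2) := by linarith
      exact lt_of_mul_lt_mul_right h7 (by linarith)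
    refine ⟨t, r, ht0, ht1, hr0, hr1, ?_, hdet.ne⟩
    have i1 : (1 - t) • p1 + t • p3 ∈ B ∩ {q | s q = c} :=
      hPc a1.1 a3.1 (by linarith) ht0.le (by ring)
    have i2 : (1 - r) • p2 + r • p4 ∈ B ∩ {q | s q = c} :=
      hPc a2.1 a4.1 (by linarith) hr0.le (by ring)
    apply hinj _ i1.1 _ i2.1 (i1.2.trans i2.2.symm)
    · simp only [map_add, map_smul, smul_eq_mul]; linarith
    · simp only [map_add, map_smul, smul_eq_mul]; linarith
  have hne' : ∀ p ∈ T, ∀ q ∈ T, u p < u q → p ≠ q := by
    rintro p hp q hq h rfl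
    exact lt_irrefl _ h
  have main := ds T (fun p => u p) huinj (fun p => (ab p).1) (fun p => (ab p).2) X1 X2
    (fun p hp => Finset.mem_filter.2 (hab1 p hp)) (fun p hp => Finset.mem_filter.2 (hab2 p hp)) ?_
    ?_ ?_
  · have hdisj : Disjoint X1 X2 := by
      rw [Finset.disjoint_left]
      intro x h1 h2
      have := (Finset.mem_filter.1 h1).2
      have := (Finset.mem_filter.1 h2).2
      linarith
    have h3 : X1.card + X2.card ≤ X.card := by
      rw [← Finset.card_union_of_disjoint hdisj]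
      exact Finset.card_le_card (Finset.union_subset (Finset.filter_subset _ _)
        (Finset.filter_subset _ _))
    omega
  · intro p hp q hq h1 h2
    have h3 := hab3 q hq
    rw [← h1, ← h2] at h3
    exact crossing_unique s (hab1 p hp).2 (hab2 p hp).2 (hab3 p hp) h3 (hT p hp).1.1.2
      (hT q hq).1.1.2
  · intro p1 h1 p2 h2 p3 h3 p4 h4 h12 h23 h34 e13 e24
    by_contra hxy
    obtain ⟨t, r, ht0, ht1, hr0, hr1, ho, hdet⟩ := four p1 h1 p2 h2 p3 h3 p4 h4 h12 h23 h34
    have k3 := hab3 p3 h3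
    rw [← e13] at k3
    have k4 := hab3 p4 h4
    rw [← e24] at k4
    have mB : ∀ x ∈ X, x ∈ B := fun x hx => subset_convexHull ℝ _ hx
    exact noncross hBc s u v hinj (hX _ (hab1 p1 h1).1) (hX _ (hab1 p2 h2).1) hxy
      (mB _ (hab2 p1 h1).1) (mB _ (hab2 p2 h2).1) (mB _ (hab2 p3 h3).1) (mB _ (hab2 p4 h4).1)
      (hab1 p1 h1).2 (hab1 p2 h2).2 (hab3 p1 h1) k3 (hab3 p2 h2) k4 (hT p1 h1).1 (hT p2 h2).1
      (hT p3 h3).1 (hT p4 h4).1 (hne' _ h1 _ h2 h12) (hne' _ h1 _ h4 (h12.trans (h23.trans h34)))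
      (hne' _ h2 _ h3 h23).symm (hne' _ h3 _ h4 h34) ht0 ht1 hr0 hr1 ho hdet
  · intro p1 h1 p2 h2 p3 h3 p4 h4 h12 h23 h34 e13 e24
    by_contra hxy
    obtain ⟨t, r, ht0, ht1, hr0, hr1, ho, hdet⟩ := four p1 h1 p2 h2 p3 h3 p4 h4 h12 h23 h34
    -- reflect: use -s
    have k1 := hab3 p1 h1
    have k2 := hab3 p2 h2
    have k3 := hab3 p3 h3
    rw [← e13] at k3
    have k4 := hab3 p4 h4
    rw [← e24] at k4
    rw [openSegment_symm] at k1 k2 k3 k4
    have mB : ∀ x ∈ X, x ∈ B := fun x hx => subset_convexHull ℝ _ hx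
    have hset : B ∩ {q | (-s) q = -c} = B ∩ {q | s q = c} := by
      ext q; simp
    have hinj' : ∀ p ∈ B, ∀ q ∈ B, (-s) p = (-s) q → u p = u q → v p = v q → p = q := by
      intro p hp q hq h1 h2 h3
      exact hinj p hp q hq (by simpa using h1) h2 h3
    refine noncross hBc (-s) u v (c := -c) hinj' (hX _ (hab2 p1 h1).1) (hX _ (hab2 p2 h2).1) hxy
      (mB _ (hab1 p1 h1).1) (mB _ (hab1 p2 h2).1) (mB _ (hab1 p3 h3).1) (mB _ (hab1 p4 h4).1)
      (by simpa using (hab2 p1 h1).2) (by simpa using (hab2 p2 h2).2) k1 k3 k2 k4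
      (by rw [hset]; exact (hT p1 h1).1) (by rw [hset]; exact (hT p2 h2).1)
      (by rw [hset]; exact (hT p3 h3).1) (by rw [hset]; exact (hT p4 h4).1)
      (hne' _ h1 _ h2 h12) (hne' _ h1 _ h4 (h12.trans (h23.trans h34)))
      (hne' _ h2 _ h3 h23).symm (hne' _ h3 _ h4 h34) ht0 ht1 hr0 hr1 ho hdet

/-- A planar section of a (at most) three-dimensional polytope with `n` vertices has at most
`5 n + 2` vertices. -/
theorem section_card (X : Finset E) (s u v : E →ₗ[ℝ] ℝ) {c : ℝ}
    (hinj : ∀ p ∈ convexHull ℝ (X : Set E), ∀ q ∈ convexHull ℝ (X : Set E),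
      s p = s q → u p = u q → v p = v q → p = q)
    (hX : ∀ x ∈ X, x ∈ (convexHull ℝ (X : Set E)).extremePoints ℝ) (T : Finset E)
    (hT : ∀ p ∈ T, p ∈ (convexHull ℝ (X : Set E) ∩ {q | s q = c}).extremePoints ℝ) :
    T.card ≤ 5 * X.card + 2 := by
  classical
  set B := convexHull ℝ (X : Set E) with hB
  have hBc : Convex ℝ B := convex_convexHull ℝ _
  have hPc : Convex ℝ (B ∩ {q | s q = c}) := hBc.inter (convex_hyperplane s.isLinear c)
  set T0 := T.filter (fun p => p ∈ X) with hT0
  set T1 := T.filter (fun p => p ∉ X ∧ ∀ q ∈ B ∩ {q | s q = c}, u q = u p → v q ≤ v p) with hT1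
  set T2 := T.filter (fun p => p ∉ X ∧ ∀ q ∈ B ∩ {q | s q = c}, u q = u p → v p ≤ v q) with hT2
  have hsub : T ⊆ T0 ∪ (T1 ∪ T2) := by
    intro p hp
    by_cases hpX : p ∈ X
    · exact Finset.mem_union_left _ (Finset.mem_filter.2 ⟨hp, hpX⟩)
    · apply Finset.mem_union_right
      by_contra hc
      rw [Finset.mem_union, not_or, hT1, hT2, Finset.mem_filter, Finset.mem_filter] at hc
      obtain ⟨hc1, hc2⟩ := hc
      have hc1' : ∃ q ∈ B ∩ {q | s q = c}, u q = u p ∧ v p < v q := by
        by_contra h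
        push Not at h
        exact hc1 ⟨hp, hpX, h⟩
      have hc2' : ∃ q ∈ B ∩ {q | s q = c}, u q = u p ∧ v q < v p := by
        by_contra h
        push Not at h
        exact hc2 ⟨hp, hpX, h⟩
      obtain ⟨q1, q1P, hu1, hv1⟩ := hc1'
      obtain ⟨q2, q2P, hu2, hv2⟩ := hc2'
      set t := (v q1 - v p) / (v q1 - v q2) with ht
      have hden : 0 < v q1 - v q2 := by linarith
      have ht0 : 0 < t := div_pos (by linarith) hden
      have ht1 : t < 1 := by rw [ht, div_lt_one hden]; linarith
      have htm : t * (v q1 - v q2) = v q1 - v p := by rw [ht]; field_simp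
      have hmseg : (1 - t) • q1 + t • q2 ∈ openSegment ℝ q1 q2 :=
        ⟨1 - t, t, by linarith, ht0, by ring, rfl⟩
      have hmP := hPc.openSegment_subset q1P q2P hmseg
      have heq : (1 - t) • q1 + t • q2 = p := by
        apply hinj _ hmP.1 _ (hT p hp).1.1 (hmP.2.trans (hT p hp).1.2.symm)
        · simp only [map_add, map_smul, smul_eq_mul]; rw [hu1, hu2]; ring
        · simp only [map_add, map_smul, smul_eq_mul]; linarith
      have := (hT p hp).2 q1P q2P (heq ▸ hmseg)
      rw [this] at hv1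
      exact lt_irrefl _ hv1
  have c0 : T0.card ≤ X.card := by
    apply Finset.card_le_card
    intro p hp
    exact (Finset.mem_filter.1 hp).2
  have c1 : T1.card ≤ 2 * X.card + 1 := by
    apply chain_card X s u v hinj hX T1
    intro p hp
    obtain ⟨h1, h2, h3⟩ := Finset.mem_filter.1 hp
    exact ⟨hT p h1, h2, h3⟩
  have c2 : T2.card ≤ 2 * X.card + 1 := by
    apply chain_card X s u (-v) (c := c) ?_ hX T2
    · intro p hp
      obtain ⟨h1, h2, h3⟩ := Finset.mem_filter.1 hp
      exact ⟨hT p h1, h2, fun q hq huq => by simpa using h3 q hq huq⟩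
    · intro p hp q hq h1 h2 h3
      exact hinj p hp q hq h1 h2 (by simpa using h3)
  have h1 := Finset.card_le_card hsub
  have h2 := Finset.card_union_le T0 (T1 ∪ T2)
  have h3 := Finset.card_union_le T1 T2
  omega

end Pool.Agent.H884R2.Zeta
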