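import Mathlib
import Pool.Agent.H884R2.Zeta.Skel
import Pool.Agent.H884R2.Zeta.Section2

set_option autoImplicit false

open Set MeasureTheory Filter
open scoped ENNReal Topology

namespace Pool.Agent.H884R2.Zeta

theorem slab_volume {n : ℕ} (A : Set (Eu n)) (I : Set ℝ) :
    volume {z : Eu (n + 1) | z (Fin.last n) ∈ I ∧ cp Fin.castSucc z ∈ A} =
      volume I * volume A := by
  have h1 : MeasurePreserving (MeasurableEquiv.toLp 2 (Fin (n + 1) → ℝ)).symm :=
    PiLp.volume_preserving_ofLp (Fin (n + 1))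
  have h2 : MeasurePreserving (MeasurableEquiv.piFinSuccAbove (fun _ : Fin (n + 1) => ℝ)
    (Fin.last n)) := volume_preserving_piFinSuccAbove (fun _ => ℝ) (Fin.last n)
  have h3 : MeasurePreserving (MeasurableEquiv.toLp 2 (Fin n → ℝ)) :=
    PiLp.volume_preserving_toLp (Fin n)
  have h12 := h2.comp h1
  have hA : volume A = volume ((MeasurableEquiv.toLp 2 (Fin n → ℝ)) ⁻¹' A) :=
    (h3.measure_preimage_equiv _).symm
  rw [hA, ← Measure.prod_prod, ← Measure.volume_eq_prod]
  rw [← h2.measure_preimage_equiv, ← h1.measure_preimage_equiv]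
  congr 1
  ext z
  have e1 : (MeasurableEquiv.toLp 2 (Fin n → ℝ))
      ((MeasurableEquiv.piFinSuccAbove (fun _ : Fin (n + 1) => ℝ) (Fin.last n))
        ((MeasurableEquiv.toLp 2 (Fin (n + 1) → ℝ)).symm z)).2 = cp Fin.castSucc z := by
    ext j
    show z.ofLp ((Fin.last n).succAbove j) = z.ofLp (Fin.castSucc j)
    rw [Fin.succAbove_last]
  simp only [Set.mem_preimage, Set.mem_prod]
  rw [e1]
  rfl

variable {n : ℕ}

theorem minFace_eq_of_face {d : ℕ} {P R : Set (Eu d)} (hP : Convex ℝ P) (hR : IsExtreme ℝ P R)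
    {x : Eu d} (hx : x ∈ R) (hdim : Module.finrank ℝ (vectorSpan ℝ R) ≤
      Module.finrank ℝ (vectorSpan ℝ (minFace P x))) : minFace P x = R := by
  have hxP := hR.subset hx
  have h1 : minFace P x ⊆ R := by
    rintro p ⟨hp, ε, hε, h⟩
    have hseg : x ∈ openSegment ℝ p (x + ε • (x - p)) := by
      refine ⟨ε / (1 + ε), 1 / (1 + ε), by positivity, by positivity,
        by field_simp; ring, ?_⟩
      have h1 : (1 + ε) • ((ε / (1 + ε)) • p + (1 / (1 + ε)) • (x + ε • (x - p))) =
          (1 + ε) • x := by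
        rw [smul_add, smul_smul, smul_smul, mul_one_div_cancel (by positivity : (1 + ε) ≠ 0),
          mul_div_cancel₀ _ (by positivity : (1 + ε) ≠ 0)]
        module
      exact smul_right_injective _ (by positivity : (1 + ε) ≠ 0) h1
    exact hR.left_mem_of_mem_openSegment hp h hx hseg
  apply h1.antisymm
  have h2 : vectorSpan ℝ (minFace P x) = vectorSpan ℝ R :=
    Submodule.eq_of_le_of_finrank_le (vectorSpan_mono ℝ h1) hdim
  intro p hp
  have hv : x - p ∈ vectorSpan ℝ (minFace P x) := by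
    rw [h2]; exact vsub_mem_vectorSpan ℝ hx hp
  obtain ⟨ε, hε, h3, -⟩ := minFace_relint hP hxP hv
  exact ⟨hR.subset hp, ε, hε, h3.1⟩

theorem count_le {P : Set (Eu (n + 3))}
    (hP : ∃ X : Finset (Eu (n + 3)), P = convexHull ℝ (X : Set (Eu (n + 3))))
    (ι : Fin (n + 1) → Fin (n + 3)) (hι : Function.Injective ι) {z : Eu (n + 1)}
    (hz : ∀ F : Set (Eu (n + 3)), IsExtreme ℝ P F → Convex ℝ F →
      Module.finrank ℝ (vectorSpan ℝ F) < n + 1 → z ∉ cp ι '' F)
    (hz0 : ∀ F : Set (Eu (n + 3)), IsExtreme ℝ P F → Convex ℝ F →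
      Module.finrank ℝ (vectorSpan ℝ F) < n →
      cp Fin.castSucc z ∉ cp (ι ∘ Fin.castSucc) '' F)
    (RR : Finset (Set (Eu (n + 3)))) (hRR : ∀ R ∈ RR, R ∈ faces P (n + 1) ∧
      (∀ w ∈ vectorSpan ℝ R, cp ι w = 0 → w = 0) ∧ z ∈ cp ι '' R)
    (GG : Finset (Set (Eu (n + 3)))) (hGG : ∀ G ∈ faces P n,
      cp Fin.castSucc z ∈ cp (ι ∘ Fin.castSucc) '' G → G ∈ GG) :
    RR.card ≤ 7 * GG.card := by
  classical
  rcases RR.eq_empty_or_nonempty with rfl | hne
  · simp
  have hPc := polytope_convex hP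
  have hPk := polytope_compact hP
  set z0 := cp Fin.castSucc z with hz0def
  set ι0 := ι ∘ Fin.castSucc with hι0
  set B : Set (Eu (n + 3)) := P ∩ {q | cp ι0 q = z0} with hB
  have hBk : IsCompact B := hPk.inter_right (isClosed_eq (continuous_cp ι0) continuous_const)
  have hBc : Convex ℝ B := by
    apply hPc.inter
    intro p hp q hq a b ha hb hab
    rw [Set.mem_ofPred_eq] at hp hq ⊢
    rw [map_add, map_smul, map_smul, hp, hq, ← add_smul, hab, one_smul]
  -- faces of the extreme points
  have hface : ∀ x ∈ B.extremePoints ℝ, minFace P x ∈ faces P n ∧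
      z0 ∈ cp ι0 '' (minFace P x) ∧ (∀ w ∈ vectorSpan ℝ (minFace P x), cp ι0 w = 0 → w = 0) := by
    intro x hx
    have hxz : cp ι0 x = z0 := hx.1.2
    have hinj : ∀ w ∈ vectorSpan ℝ (minFace P x), cp ι0 w = 0 → w = 0 := by
      intro w hw hw0
      refine inj_of_extreme_fibre (cp ι0) hPc ?_ hw hw0
      rw [hxz]; exact hx
    have hmem : z0 ∈ cp ι0 '' (minFace P x) := ⟨x, self_mem_minFace hx.1.1, hxz⟩
    have h1 := finrank_le_of_inj ι0 hinj
    have h2 : ¬ Module.finrank ℝ (vectorSpan ℝ (minFace P x)) < n := fun h =>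
      hz0 _ (minFace_extreme hPc) (minFace_convex hPc hx.1.1) h hmem
    exact ⟨⟨minFace_extreme hPc, minFace_convex hPc hx.1.1, ⟨x, self_mem_minFace hx.1.1⟩,
      by omega⟩, hmem, hinj⟩
  have hinjF : Set.InjOn (minFace P) (B.extremePoints ℝ) := by
    intro x hx y hy hxy
    have h1 : y ∈ minFace P x := by
      rw [hxy]; exact self_mem_minFace hy.1.1
    have h2 := (hface x hx).2.2 (x - y) (vsub_mem_vectorSpan ℝ (self_mem_minFace hx.1.1) h1)
      (by rw [map_sub, hx.1.2, hy.1.2, sub_self])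
    exact sub_eq_zero.1 h2
  have hfin : (B.extremePoints ℝ).Finite := by
    refine Set.Finite.of_finite_image ((GG.finite_toSet).subset ?_) hinjF
    rintro _ ⟨x, hx, rfl⟩
    exact hGG _ (hface x hx).1 (hface x hx).2.1
  set XB := hfin.toFinset with hXB
  have hXBcard : XB.card ≤ GG.card := by
    refine Finset.card_le_card_of_injOn (minFace P) ?_ ?_
    · intro x hx
      have hx' : x ∈ B.extremePoints ℝ := by simpa [hXB] using hx
      exact hGG _ (hface x hx').1 (hface x hx').2.1
    · intro x hx y hy h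
      exact hinjF (by simpa [hXB] using hx) (by simpa [hXB] using hy) h
  have hBhull : convexHull ℝ (XB : Set (Eu (n + 3))) = B := by
    have h1 := closure_convexHull_extremePoints hBk hBc
    have h2 : (XB : Set (Eu (n + 3))) = B.extremePoints ℝ := by simp [hXB]
    rw [h2]
    have h3 : IsClosed (convexHull ℝ (B.extremePoints ℝ)) :=
      (Set.Finite.isCompact_convexHull (𝕜 := ℝ) hfin).isClosed
    rwa [h3.closure_eq] at h1
  -- the remaining coordinates
  have hcompl : ((Finset.univ.image ι)ᶜ).card = 2 := by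
    rw [Finset.card_compl, Finset.card_image_of_injective _ hι]
    simp
  obtain ⟨a, b, hab, habs⟩ := Finset.card_eq_two.1 hcompl
  have hcover : ∀ i : Fin (n + 3), (∃ j : Fin n, i = ι (Fin.castSucc j)) ∨ i = ι (Fin.last n) ∨
      i = a ∨ i = b := by
    intro i
    by_cases hi : i ∈ Finset.univ.image ι
    · obtain ⟨j, -, rfl⟩ := Finset.mem_image.1 hi
      rcases Fin.eq_castSucc_or_eq_last j with ⟨j', rfl⟩ | rfl
      · left; exact ⟨j', rfl⟩
      · right; left; rfl
    · have : i ∈ (Finset.univ.image ι)ᶜ := Finset.mem_compl.2 hi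
      rw [habs] at this
      simp only [Finset.mem_insert, Finset.mem_singleton] at this
      tauto
  -- the three coordinates
  let co : Fin (n + 3) → Eu (n + 3) →ₗ[ℝ] ℝ := fun i =>
    { toFun := fun x => x i, map_add' := fun x y => rfl, map_smul' := fun c x => rfl }
  have hco : ∀ i x, co i x = x i := fun i x => rfl
  have hslice : convexHull ℝ (XB : Set (Eu (n + 3))) ∩ {q | co (ι (Fin.last n)) q = z (Fin.last n)}
      = P ∩ {q | cp ι q = z} := by
    rw [hBhull]
    ext q
    simp only [hB, Set.mem_inter_iff, Set.mem_ofPred_eq, hco, and_assoc]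
    refine and_congr_right fun _ => ?_
    constructor
    · rintro ⟨h1, h2⟩
      ext j
      rcases Fin.eq_castSucc_or_eq_last j with ⟨j', rfl⟩ | rfl
      · have := congrArg (fun y : Eu n => y j') h1
        simpa [hι0, hz0def] using this
      · simpa using h2
    · intro h
      refine ⟨?_, ?_⟩
      · ext j
        have := congrArg (fun y : Eu (n + 1) => y (Fin.castSucc j)) h
        simpa [hι0, hz0def] using this
      · have := congrArg (fun y : Eu (n + 1) => y (Fin.last n)) h
        simpa using this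
  have hchoose : ∀ R : Set (Eu (n + 3)), ∃ x, R ∈ RR → x ∈ R ∧ cp ι x = z := by
    intro R
    by_cases hR : R ∈ RR
    · obtain ⟨x, hx, hxz⟩ := (hRR R hR).2.2
      exact ⟨x, fun _ => ⟨hx, hxz⟩⟩
    · exact ⟨0, fun h => absurd h hR⟩
  choose xR hxR using hchoose
  have hmf : ∀ R ∈ RR, minFace P (xR R) = R := by
    intro R hR
    obtain ⟨hRf, hRi, -⟩ := hRR R hR
    obtain ⟨hx, hxz⟩ := hxR R hR
    apply minFace_eq_of_face hPc hRf.1 hx
    rw [hRf.2.2.2]
    by_contra hlt
    push Not at hlt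
    exact hz _ (minFace_extreme hPc) (minFace_convex hPc (hRf.1.subset hx)) hlt
      ⟨xR R, self_mem_minFace (hRf.1.subset hx), hxz⟩
  have hTcard : (RR.image xR).card = RR.card := by
    apply Finset.card_image_of_injOn
    intro R hR S hS hRS
    have h1 := hmf R hR
    have h2 := hmf S hS
    have hRS' : xR R = xR S := hRS
    rw [hRS', h2] at h1
    exact h1.symm
  have hkey := section_card XB (co (ι (Fin.last n))) (co a) (co b) (c := z (Fin.last n)) ?_ ?_
    (RR.image xR) ?_
  · have hXBne : 0 < XB.card := by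
      rw [Finset.card_pos]
      obtain ⟨R, hR⟩ := hne
      by_contra hcon
      rw [Finset.not_nonempty_iff_eq_empty] at hcon
      rw [hcon] at hBhull
      have hxB : xR R ∈ B := by
        refine ⟨(hRR R hR).1.1.subset (hxR R hR).1, ?_⟩
        show cp ι0 (xR R) = z0
        ext j
        have := congrArg (fun y : Eu (n + 1) => y (Fin.castSucc j)) (hxR R hR).2
        simpa [hι0, hz0def] using this
      rw [← hBhull] at hxB
      simp at hxB
    rw [hTcard] at hkey
    omega
  · intro p hp q hq h1 h2 h3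
    rw [hBhull] at hp hq
    have hpq : cp ι0 p = cp ι0 q := by rw [hp.2, hq.2]
    ext i
    rcases hcover i with ⟨j, rfl⟩ | rfl | rfl | rfl
    · have := congrArg (fun y : Eu n => y j) hpq
      simpa [hι0] using this
    · exact h1
    · exact h2
    · exact h3
  · intro x hx
    rw [hBhull]
    simpa [hXB] using hx
  · intro p hp
    obtain ⟨R, hR, rfl⟩ := Finset.mem_image.1 hp
    rw [hslice]
    obtain ⟨hRf, hRi, -⟩ := hRR R hR
    obtain ⟨hx, hxz⟩ := hxR R hR
    refine ⟨⟨hRf.1.subset hx, hxz⟩, ?_⟩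
    intro p1 hp1 p2 hp2 hseg
    have h1 : p1 ∈ R := hRf.1.left_mem_of_mem_openSegment hp1.1 hp2.1 hx hseg
    have h2 := hRi (p1 - xR R) (vsub_mem_vectorSpan ℝ h1 hx) (by
      have h3 : cp ι p1 = z := hp1.2
      rw [map_sub, h3, hxz, sub_self])
    exact sub_eq_zero.1 h2

end Pool.Agent.H884R2.Zeta
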