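import Mathlib
import Pool.Agent.H884R2.Zeta.Ineq

set_option autoImplicit false

open Set MeasureTheory Filter
open scoped ENNReal Topology

namespace Pool.Agent.H884R2.Zeta

variable {n : ℕ}

theorem face_compact {d : ℕ} {P F : Set (Eu d)}
    (hP : ∃ X : Finset (Eu d), P = convexHull ℝ (X : Set (Eu d)))
    (hF : IsExtreme ℝ P F) (hFc : Convex ℝ F) : IsCompact F := by
  obtain ⟨X, rfl⟩ := hP
  rw [face_eq_hull X hF hFc]
  exact Set.Finite.isCompact_convexHull (𝕜 := ℝ) (X.finite_toSet.inter_of_right _)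

theorem proj_sum_le {P : Set (Eu (n + 3))}
    (hP : ∃ X : Finset (Eu (n + 3)), P = convexHull ℝ (X : Set (Eu (n + 3))))
    {D : ℝ} (x0 : Eu (n + 3)) (hD : ∀ x ∈ P, ∀ i, |x i - x0 i| ≤ D)
    (ι : Fin (n + 1) → Fin (n + 3)) (hι : Function.Injective ι)
    (RR : Finset (Set (Eu (n + 3)))) (hRR : ∀ R ∈ RR, R ∈ faces P (n + 1) ∧
      (∀ w ∈ vectorSpan ℝ R, cp ι w = 0 → w = 0)) :
    ∑ R ∈ RR, volume (cp ι '' R) ≤ 14 * ENNReal.ofReal D * content n P := by
  classical
  have hfin := finite_faces' hP n
  have hlow : ∀ m : ℕ, {F : Set (Eu (n + 3)) | (IsExtreme ℝ P F ∧ Convex ℝ F) ∧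
      Module.finrank ℝ (vectorSpan ℝ F) < m}.Finite := by
    intro m
    obtain ⟨X, rfl⟩ := hP
    exact (finite_faces X).subset fun F hF => hF.1
  have hinj0 : Function.Injective (ι ∘ Fin.castSucc) := hι.comp (Fin.castSucc_injective _)
  set I : Set ℝ := Set.Icc (x0 (ι (Fin.last n)) - D) (x0 (ι (Fin.last n)) + D) with hI
  have hIvol : volume I = 2 * ENNReal.ofReal D := by
    rw [hI, Real.volume_Icc]
    have : x0 (ι (Fin.last n)) + D - (x0 (ι (Fin.last n)) - D) = 2 * D := by ring
    rw [this, ENNReal.ofReal_mul (by norm_num)]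
    simp
  set GG := hfin.toFinset with hGG
  let slab : Set (Eu (n + 3)) → Set (Eu (n + 1)) := fun G =>
    {z | z (Fin.last n) ∈ I ∧ cp Fin.castSucc z ∈ cp (ι ∘ Fin.castSucc) '' G}
  have hslabvol : ∀ G, volume (slab G) = volume I * volume (cp (ι ∘ Fin.castSucc) '' G) :=
    fun G => slab_volume _ _
  have hslabmeas : ∀ G ∈ GG, MeasurableSet (slab G) := by
    intro G hG
    have hG' : G ∈ faces P n := by simpa [hGG] using hG
    have h1 : IsClosed (cp (ι ∘ Fin.castSucc) '' G) :=
      ((face_compact hP hG'.1 hG'.2.1).image (continuous_cp _)).isClosed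
    have h2 : MeasurableSet ((cp (Fin.castSucc : Fin n → Fin (n + 1))) ⁻¹'
      (cp (ι ∘ Fin.castSucc) '' G)) := (h1.preimage (continuous_cp _)).measurableSet
    have h3 : MeasurableSet {z : Eu (n + 1) | z (Fin.last n) ∈ I} := by
      have hc : Continuous fun z : Eu (n + 1) => z (Fin.last n) := by fun_prop
      exact (isClosed_Icc.preimage hc).measurableSet
    exact h3.inter h2
  have hRmeas : ∀ R ∈ RR, MeasurableSet (cp ι '' R) := by
    intro R hR
    have hR' := (hRR R hR).1
    exact ((face_compact hP hR'.1 hR'.2.1).image (continuous_cp _)).isClosed.measurableSet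
  -- null sets
  have hae1 : ∀ᵐ z : Eu (n + 1), ∀ F : Set (Eu (n + 3)), IsExtreme ℝ P F → Convex ℝ F →
      Module.finrank ℝ (vectorSpan ℝ F) < n + 1 → z ∉ cp ι '' F := by
    have h1 : volume (⋃ F ∈ {F : Set (Eu (n + 3)) | (IsExtreme ℝ P F ∧ Convex ℝ F) ∧
        Module.finrank ℝ (vectorSpan ℝ F) < n + 1}, cp ι '' F) = 0 :=
      (measure_biUnion_null_iff (hlow _).countable).2 fun F hF => volume_image_zero ι hF.2
    filter_upwards [measure_eq_zero_iff_ae_notMem.1 h1] with z hz F hF1 hF2 hF3 hzF
    exact hz (Set.mem_biUnion (show F ∈ _ from ⟨⟨hF1, hF2⟩, hF3⟩) hzF)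
  have hae2 : ∀ᵐ z : Eu (n + 1), ∀ F : Set (Eu (n + 3)), IsExtreme ℝ P F → Convex ℝ F →
      Module.finrank ℝ (vectorSpan ℝ F) < n →
      cp Fin.castSucc z ∉ cp (ι ∘ Fin.castSucc) '' F := by
    have h1 : volume (⋃ F ∈ {F : Set (Eu (n + 3)) | (IsExtreme ℝ P F ∧ Convex ℝ F) ∧
        Module.finrank ℝ (vectorSpan ℝ F) < n},
        {z : Eu (n + 1) | z (Fin.last n) ∈ (Set.univ : Set ℝ) ∧
          cp Fin.castSucc z ∈ cp (ι ∘ Fin.castSucc) '' F}) = 0 := by
      refine (measure_biUnion_null_iff (hlow _).countable).2 fun F hF => ?_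
      rw [slab_volume, volume_image_zero _ hF.2, mul_zero]
    filter_upwards [measure_eq_zero_iff_ae_notMem.1 h1] with z hz F hF1 hF2 hF3 hzF
    exact hz (Set.mem_biUnion (show F ∈ _ from ⟨⟨hF1, hF2⟩, hF3⟩) ⟨Set.mem_univ _, hzF⟩)
  calc ∑ R ∈ RR, volume (cp ι '' R)
      = ∑ R ∈ RR, ∫⁻ z, (cp ι '' R).indicator 1 z := by
        refine Finset.sum_congr rfl fun R hR => ?_
        rw [lintegral_indicator_one (hRmeas R hR)]
    _ = ∫⁻ z, ∑ R ∈ RR, (cp ι '' R).indicator (1 : Eu (n + 1) → ℝ≥0∞) z := by
        rw [lintegral_finset_sum']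
        intro R hR
        exact (measurable_one.indicator (hRmeas R hR)).aemeasurable
    _ ≤ ∫⁻ z, 7 * ∑ G ∈ GG, (slab G).indicator (1 : Eu (n + 1) → ℝ≥0∞) z := by
        refine lintegral_mono_ae ?_
        filter_upwards [hae1, hae2] with z hz1 hz2
        by_cases hzI : z (Fin.last n) ∈ I
        · have h1 : ∑ R ∈ RR, (cp ι '' R).indicator (1 : Eu (n + 1) → ℝ≥0∞) z =
              ((RR.filter (fun R => z ∈ cp ι '' R)).card : ℝ≥0∞) := by
            rw [Finset.card_filter]
            push_cast
            exact Finset.sum_congr rfl fun R _ => by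
              by_cases h : z ∈ cp ι '' R <;> simp [Set.indicator_of_mem, h]
          have h2 : ∑ G ∈ GG, (slab G).indicator (1 : Eu (n + 1) → ℝ≥0∞) z =
              ((GG.filter (fun G => z ∈ slab G)).card : ℝ≥0∞) := by
            rw [Finset.card_filter]
            push_cast
            exact Finset.sum_congr rfl fun R _ => by
              by_cases h : z ∈ slab R <;> simp [Set.indicator_of_mem, h]
          rw [h1, h2]
          have h3 := count_le hP ι hι hz1 hz2 (RR.filter (fun R => z ∈ cp ι '' R))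
            (by
              intro R hR
              rw [Finset.mem_filter] at hR
              exact ⟨(hRR R hR.1).1, (hRR R hR.1).2, hR.2⟩)
            (GG.filter (fun G => z ∈ slab G))
            (by
              intro G hG hzG
              rw [Finset.mem_filter]
              exact ⟨by simpa [hGG] using hG, hzI, hzG⟩)
          exact_mod_cast h3
        · have h1 : ∑ R ∈ RR, (cp ι '' R).indicator (1 : Eu (n + 1) → ℝ≥0∞) z = 0 := by
            refine Finset.sum_eq_zero fun R hR => Set.indicator_of_notMem ?_ _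
            rintro ⟨x, hx, rfl⟩
            apply hzI
            have := abs_le.1 (hD x ((hRR R hR).1.1.subset hx) (ι (Fin.last n)))
            rw [cp_apply, hI]
            constructor <;> linarith [this.1, this.2]
          rw [h1]
          positivity
    _ = 7 * ∑ G ∈ GG, volume (slab G) := by
        rw [lintegral_const_mul' _ _ (by norm_num), lintegral_finset_sum']
        · congr 1
          refine Finset.sum_congr rfl fun G hG => ?_
          rw [lintegral_indicator_one (hslabmeas G hG)]
        · intro G hG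
          exact (measurable_one.indicator (hslabmeas G hG)).aemeasurable
    _ ≤ 7 * ∑ G ∈ GG, (2 * ENNReal.ofReal D) * Measure.euclideanHausdorffMeasure n G := by
        gcongr with G hG
        rw [hslabvol, hIvol]
        gcongr
        have := image_measure_le (lipschitz_cp hinj0) n G
        rw [EuclideanSpace.euclideanHausdorffMeasure_eq_volume] at this
        simpa using this
    _ = 14 * ENNReal.ofReal D * content n P := by
        have := hfin.fintype
        unfold content
        rw [tsum_fintype, ← Finset.mul_sum]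
        have h1 : ∑ G ∈ GG, Measure.euclideanHausdorffMeasure n G =
            ∑ F : faces P n, Measure.euclideanHausdorffMeasure n (F : Set (Eu (n + 3))) := by
          rw [hGG, ← Finset.sum_coe_sort]
          refine Fintype.sum_equiv (Equiv.subtypeEquivRight fun F => by simp) _ _ fun F => rfl
        rw [h1]
        ring

/-- `ζ_{d-2} ≤ C(d) · D · ζ_{d-3}` for a polytope contained in a cube of half-width `D`. -/
theorem content_succ_le {P : Set (Eu (n + 3))}
    (hP : ∃ X : Finset (Eu (n + 3)), P = convexHull ℝ (X : Set (Eu (n + 3))))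
    {D : ℝ} (x0 : Eu (n + 3)) (hD : ∀ x ∈ P, ∀ i, |x i - x0 i| ≤ D) :
    content (n + 1) P ≤ ((14 * ((n + 3) * (n + 1)) ^ (n + 1) * (n + 3) ^ (n + 1) : ℕ) : ℝ≥0∞) *
      (ENNReal.ofReal D * content n P) := by
  classical
  have hfin := finite_faces' hP (n + 1)
  have := hfin.fintype
  have hc : ∀ F : faces P (n + 1), ∃ ι : Fin (n + 1) → Fin (n + 3), Function.Injective ι ∧
      (∀ w ∈ vectorSpan ℝ (F : Set (Eu (n + 3))), cp ι w = 0 → w = 0) ∧
      Measure.euclideanHausdorffMeasure (n + 1) (F : Set (Eu (n + 3))) ≤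
        (((n + 3) * (n + 1) : ℕ) : ℝ≥0∞) ^ (n + 1) * volume (cp ι '' (F : Set (Eu (n + 3)))) :=
    fun F => face_measure_le F.2.2.2.2
  choose f hf1 hf2 hf3 using hc
  have hbound : ∀ ι : Fin (n + 1) → Fin (n + 3),
      ∑ F : faces P (n + 1) with f F = ι, volume (cp ι '' (F : Set (Eu (n + 3)))) ≤
        14 * ENNReal.ofReal D * content n P := by
    intro ι
    rcases (Finset.univ.filter (fun F : faces P (n + 1) => f F = ι)).eq_empty_or_nonempty with
      h | ⟨F0, hF0⟩
    · rw [h]; simp
    · have hι : Function.Injective ι := by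
        rw [← (Finset.mem_filter.1 hF0).2]; exact hf1 F0
      have h1 := proj_sum_le hP x0 hD ι hι
        ((Finset.univ.filter (fun F : faces P (n + 1) => f F = ι)).map
          (Function.Embedding.subtype _)) (by
          intro R hR
          obtain ⟨F, hF, rfl⟩ := Finset.mem_map.1 hR
          have h2 := (Finset.mem_filter.1 hF).2
          refine ⟨F.2, ?_⟩
          rw [← h2]
          exact hf2 F)
      rw [Finset.sum_map] at h1
      exact h1
  calc content (n + 1) P
      = ∑ F : faces P (n + 1), Measure.euclideanHausdorffMeasure (n + 1)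
          (F : Set (Eu (n + 3))) := by unfold content; rw [tsum_fintype]
    _ ≤ ∑ F : faces P (n + 1), (((n + 3) * (n + 1) : ℕ) : ℝ≥0∞) ^ (n + 1) *
          volume (cp (f F) '' (F : Set (Eu (n + 3)))) := Finset.sum_le_sum fun F _ => hf3 F
    _ = (((n + 3) * (n + 1) : ℕ) : ℝ≥0∞) ^ (n + 1) *
          ∑ ι : Fin (n + 1) → Fin (n + 3), ∑ F : faces P (n + 1) with f F = ι,
            volume (cp ι '' (F : Set (Eu (n + 3)))) := by
        rw [← Finset.mul_sum]
        congr 1
        rw [← Finset.sum_fiberwise Finset.univ f]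
        refine Finset.sum_congr rfl fun ι _ => Finset.sum_congr rfl fun F hF => ?_
        rw [(Finset.mem_filter.1 hF).2]
    _ ≤ (((n + 3) * (n + 1) : ℕ) : ℝ≥0∞) ^ (n + 1) *
          ∑ ι : Fin (n + 1) → Fin (n + 3), 14 * ENNReal.ofReal D * content n P := by
        gcongr with ι _
        exact hbound ι
    _ = _ := by
        rw [Finset.sum_const, Finset.card_univ, Fintype.card_fun, Fintype.card_fin,
          Fintype.card_fin, nsmul_eq_mul]
        push_cast
        ring

end Pool.Agent.H884R2.Zeta
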