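import Mathlib
import Pool.Agent.H884R2.Zeta.Box
import Pool.Agent.H884R2.Zeta.Abs
import Pool.Agent.H884R2.Zeta.Ineq2

set_option autoImplicit false

open Set MeasureTheory Filter
open scoped ENNReal Topology

namespace Pool.Agent.H884R2.Zeta

/-- lower bounds for the projections of the thin simplices -/
theorem spx_vol_low {n k : ℕ} (hk : k ≤ n + 4) {ι : Fin k → Fin (n + 4)}
    {δ : ℝ} (h : ∀ j, wt (n + 2) δ (ι j) = 1) :
    ENNReal.ofReal ((1 / ((n + 4 : ℕ) : ℝ)) ^ (n + 4)) ≤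
      volume {y : Eu k | ∀ j, 0 ≤ y j ∧ y j ≤ wt (n + 2) δ (ι j) / ((n + 4 : ℕ) : ℝ)} := by
  rw [box_volume]
  simp_rw [h]
  rw [Finset.prod_const, Finset.card_univ, Fintype.card_fin, ← ENNReal.ofReal_pow (by positivity)]
  apply ENNReal.ofReal_le_ofReal
  apply pow_le_pow_of_le_one (by positivity) _ hk
  rw [div_le_one (by positivity)]
  push_cast
  linarith [(Nat.cast_nonneg n : (0 : ℝ) ≤ n)]

theorem poly_ineq {n : ℕ} (C₁ c₁ : ℝ) (hC₁ : 0 < C₁) (hc₁ : 0 < c₁) : ∃ C₂ : ℝ, 0 < C₂ ∧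
    ∀ P : Set (Eu (n + 4)), IsPolytope P → ∀ τ : ℝ, 0 < τ →
      content (n + 3) P ≤ ENNReal.ofReal (C₁ * τ ^ (n + 3)) →
      ENNReal.ofReal (c₁ * τ ^ (n + 4)) ≤ content (n + 4) P →
      ∃ x : Eu (n + 4), ∀ p ∈ P, ∀ j, |p j - x j| ≤ C₂ * τ := by
  obtain ⟨C₂, hC₂, h⟩ := diam_bound (m := n + 3) (by omega) hC₁ hc₁
  refine ⟨C₂, hC₂, fun P hP τ hτ h1 h2 => ?_⟩
  exact h P (polytope_convex hP.1) (polytope_compact hP.1) τ hτ
    (fun i => (volume_cp_le Fin.succAbove_right_injective hP.1).trans h1)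
    (h2.trans content_top_le)

theorem exists_succ_const (n : ℕ) : ∃ K : ℝ, 0 < K ∧ ∀ P : Set (Eu (n + 4)),
    (∃ X : Finset (Eu (n + 4)), P = convexHull ℝ (X : Set (Eu (n + 4)))) →
    ∀ (D : ℝ) (x0 : Eu (n + 4)), (∀ x ∈ P, ∀ i, |x i - x0 i| ≤ D) →
      content (n + 2) P ≤ ENNReal.ofReal (K * D) * content (n + 1) P := by
  refine ⟨((14 * ((n + 1 + 3) * (n + 1 + 1)) ^ (n + 1 + 1) * (n + 1 + 3) ^ (n + 1 + 1) : ℕ) : ℝ),
    by positivity, fun P hP D x0 h => ?_⟩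
  refine (content_succ_le (n := n + 1) (P := P) hP x0 h).trans (le_of_eq ?_)
  rw [ENNReal.ofReal_mul (Nat.cast_nonneg _), ENNReal.ofReal_natCast]
  exact (mul_assoc _ _ _).symm

theorem zetaPolytopes_not_convex (n : ℕ) : ¬ Convex ℝ (zetaPolytopes (n + 4)) := by
  have h := not_convex_of (n := n)
    {c | ∃ P : Set (Eu (n + 4)), IsPolytope P ∧ c = fun k => content k P} ?_ ?_
  · intro hc
    apply h
    have e : {z : Fin (n + 4) → ℝ | ∃ c ∈ {c : ℕ → ℝ≥0∞ | ∃ P : Set (Eu (n + 4)), IsPolytope P ∧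
        c = fun k => content k P}, IsZetaVector c z} = zetaPolytopes (n + 4) := by
      ext z
      constructor
      · rintro ⟨c, ⟨P, hP, rfl⟩, hz⟩
        exact ⟨P, hP, hz⟩
      · rintro ⟨P, hP, hz⟩
        exact ⟨_, ⟨P, hP, rfl⟩, hz⟩
    rw [e]
    exact hc
  · intro C₁ c₁ hC₁ hc₁
    obtain ⟨C₂, hC₂, hd⟩ := poly_ineq (n := n) C₁ c₁ hC₁ hc₁
    obtain ⟨K, hK, hsucc⟩ := exists_succ_const n
    refine ⟨K * C₂, by positivity, ?_⟩
    rintro c ⟨P, hP, rfl⟩ τ hτ h1 h2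
    obtain ⟨x, hx⟩ := hd P hP τ hτ h1 h2
    have h3 := hsucc P hP.1 _ x hx
    rwa [← mul_assoc] at h3
  · obtain ⟨C, hC, hc⟩ := spx_content (n + 2)
    refine ⟨C, (1 / ((n + 4 : ℕ) : ℝ)) ^ (n + 4), hC, by positivity, fun δ hδ hδ1 => ?_⟩
    refine ⟨_, ⟨convexHull ℝ (spx (wt (n + 2) δ) : Set (Eu (n + 2 + 2))),
      spx_polytope (by omega) (fun i => wt_pos hδ i), rfl⟩, ?_, ?_, ?_, ?_⟩
    · intro k _ hk
      exact (hc δ hδ hδ1 k hk).1
    · exact (hc δ hδ hδ1 (n + 3) (by omega)).2 (by omega)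
    · let ι : Fin (n + 2) → Fin (n + 4) := Fin.castLE (by omega)
      have hι : Function.Injective ι := Fin.castLE_injective _
      have h1 := spx_vol_low (n := n) (k := n + 2) (by omega) (ι := ι) (δ := δ)
        (fun j => by
          unfold wt
          rw [if_pos]
          exact j.2)
      refine h1.trans ((measure_mono (spx_proj_sup (by omega) hι (fun i => wt_pos hδ i))).trans ?_)
      exact volume_cp_le hι ⟨_, rfl⟩
    · rintro rfl
      have hι : Function.Injective (id : Fin (n + 4) → Fin (n + 4)) := Function.injective_id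
      have h1 := spx_vol_low (n := n) (k := n + 4) le_rfl (ι := id) (δ := 1)
        (fun j => by
          unfold wt
          split_ifs <;> rfl)
      refine h1.trans ((measure_mono (spx_proj_sup (by omega) hι
        (fun i => wt_pos one_pos i))).trans ?_)
      exact volume_cp_le hι ⟨_, rfl⟩

end Pool.Agent.H884R2.Zeta
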