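import Mathlib
import Pool.Agent.H884R2.Zeta.Poly

set_option autoImplicit false

open Set MeasureTheory Filter
open scoped ENNReal Topology

namespace Pool.Agent.H884R2.Zeta

variable {d : ℕ}

theorem bodyContent_le {P : Set (Eu d)} (hP : IsPolytope P) (k : ℕ) :
    bodyContent k P ≤ content k P := by
  unfold bodyContent
  refine (iInf_le _ (fun _ => P)).trans ((iInf_le _ (fun _ => hP)).trans
    ((iInf_le _ (by simp [Metric.hausdorffDist_self_zero])).trans ?_))
  simp

theorem bodyContent_lt {K : Set (Eu d)} {k : ℕ} {b : ℝ≥0∞} (h : bodyContent k K < b) :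
    ∃ P : ℕ → Set (Eu d), (∀ n, IsPolytope (P n)) ∧
      Tendsto (fun n => Metric.hausdorffDist (P n) K) atTop (𝓝 0) ∧
      liminf (fun n => content k (P n)) atTop < b := by
  unfold bodyContent at h
  simp only [iInf_lt_iff] at h
  obtain ⟨P, h1, h2, h3⟩ := h
  exact ⟨P, h1, h2, h3⟩

theorem bodyContent_le_liminf {K : Set (Eu d)} (k : ℕ) {P : ℕ → Set (Eu d)}
    (h1 : ∀ n, IsPolytope (P n))
    (h2 : Tendsto (fun n => Metric.hausdorffDist (P n) K) atTop (𝓝 0)) :
    bodyContent k K ≤ liminf (fun n => content k (P n)) atTop := by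
  unfold bodyContent
  exact (iInf_le _ P).trans ((iInf_le _ h1).trans (iInf_le _ h2))

theorem haus_ne_top {P K : Set (Eu d)} (hP : IsPolytope P) (hK : IsCompact K)
    (hK' : K.Nonempty) : Metric.hausdorffEDist P K ≠ ⊤ :=
  Metric.hausdorffEDist_ne_top_of_nonempty_of_bounded (hP.2.mono interior_subset) hK'
    (polytope_compact hP.1).isBounded hK.isBounded

/-- the diameter bound for bodies -/
theorem body_ineq {n : ℕ} (C₁ c₁ : ℝ) (hC₁ : 0 < C₁) (hc₁ : 0 < c₁) : ∃ C₂ : ℝ, 0 < C₂ ∧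
    ∀ K : Set (Eu (n + 4)), IsCompact K → K.Nonempty → ∀ τ : ℝ, 0 < τ →
      bodyContent (n + 3) K ≤ ENNReal.ofReal (C₁ * τ ^ (n + 3)) →
      ENNReal.ofReal (c₁ * τ ^ (n + 4)) ≤ bodyContent (n + 4) K →
      bodyContent (n + 2) K ≤ ENNReal.ofReal (C₂ * τ) * bodyContent (n + 1) K := by
  obtain ⟨C₂, hC₂, hd⟩ := poly_ineq (n := n) (2 * C₁) (c₁ / 2) (by positivity) (by positivity)
  obtain ⟨M, hM, hsucc⟩ := exists_succ_const n
  refine ⟨M * (3 * C₂), by positivity, fun K hK hK' τ hτ h1 h2 => ?_⟩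
  have hη : 0 < C₂ * τ := by positivity
  -- a good polytope
  have hex : ∃ x : Eu (n + 4), ∀ q ∈ K, ∀ j, |q j - x j| ≤ 2 * (C₂ * τ) := by
    have h3 : bodyContent (n + 3) K < ENNReal.ofReal (2 * C₁ * τ ^ (n + 3)) := by
      refine h1.trans_lt ?_
      rw [ENNReal.ofReal_lt_ofReal_iff (by positivity)]
      have : 0 < C₁ * τ ^ (n + 3) := by positivity
      linarith
    obtain ⟨P, hP, hPK, hlim⟩ := bodyContent_lt h3
    have h4 := frequently_lt_of_liminf_lt (by isBoundedDefault) hlim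
    have h5 : ENNReal.ofReal (c₁ / 2 * τ ^ (n + 4)) <
        liminf (fun m => content (n + 4) (P m)) atTop := by
      refine lt_of_lt_of_le ?_ (h2.trans (bodyContent_le_liminf (n + 4) hP hPK))
      rw [ENNReal.ofReal_lt_ofReal_iff (by positivity)]
      have : 0 < c₁ * τ ^ (n + 4) := by positivity
      linarith
    have h6 := eventually_lt_of_lt_liminf h5
    have h7 := hPK.eventually (gt_mem_nhds hη)
    obtain ⟨m, hm1, hm2, hm3⟩ := (h4.and_eventually (h6.and h7)).exists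
    obtain ⟨x, hx⟩ := hd (P m) (hP m) τ hτ hm1.le hm2.le
    refine ⟨x, fun q hq j => ?_⟩
    obtain ⟨p, hp, hpq⟩ := Metric.exists_dist_lt_of_hausdorffDist_lt' hq hm3
      (haus_ne_top (hP m) hK hK')
    have h8 := hx p hp j
    have h9 : |q j - p j| ≤ C₂ * τ := by
      have := abs_coord_le (q - p) j
      rw [PiLp.sub_apply] at this
      rw [dist_comm, dist_eq_norm] at hpq
      linarith
    calc |q j - x j| = |(q j - p j) + (p j - x j)| := by ring_nf
      _ ≤ |q j - p j| + |p j - x j| := abs_add_le _ _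
      _ ≤ 2 * (C₂ * τ) := by linarith
  obtain ⟨x, hx⟩ := hex
  have hc0 : ENNReal.ofReal (M * (3 * C₂) * τ) ≠ 0 := by
    rw [Ne, ENNReal.ofReal_eq_zero, not_le]; positivity
  have hctop : ENNReal.ofReal (M * (3 * C₂) * τ) ≠ ⊤ := ENNReal.ofReal_ne_top
  rw [mul_comm, ← ENNReal.div_le_iff_le_mul (Or.inl hc0) (Or.inl hctop)]
  refine le_iInf fun P => le_iInf fun hP => le_iInf fun hPK => ?_
  rw [ENNReal.div_le_iff_le_mul (Or.inl hc0) (Or.inl hctop), mul_comm,
    ← ENNReal.liminf_const_mul_of_ne_top hctop]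
  refine (bodyContent_le_liminf (n + 2) hP hPK).trans (liminf_le_liminf ?_)
  filter_upwards [hPK.eventually (gt_mem_nhds hη)] with m hm
  have h3 := hsucc (P m) (hP m).1 (3 * C₂ * τ) x (fun p hp j => by
    obtain ⟨q, hq, hpq⟩ := Metric.exists_dist_lt_of_hausdorffDist_lt hp hm
      (haus_ne_top (hP m) hK hK')
    have h8 := hx q hq j
    have h9 : |p j - q j| ≤ C₂ * τ := by
      have := abs_coord_le (p - q) j
      rw [PiLp.sub_apply] at this
      rw [dist_eq_norm] at hpq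
      linarith
    calc |p j - x j| = |(p j - q j) + (q j - x j)| := by ring_nf
      _ ≤ |p j - q j| + |q j - x j| := abs_add_le _ _
      _ ≤ 3 * C₂ * τ := by linarith)
  rwa [← mul_assoc] at h3

theorem box_volume' {k : ℕ} (a b : ℝ) :
    volume {y : Eu k | ∀ j, a ≤ y j ∧ y j ≤ b} = ENNReal.ofReal (b - a) ^ k := by
  have h3 : MeasurePreserving (MeasurableEquiv.toLp 2 (Fin k → ℝ)) :=
    PiLp.volume_preserving_toLp (Fin k)
  rw [← h3.measure_preimage_equiv]
  have : (MeasurableEquiv.toLp 2 (Fin k → ℝ)) ⁻¹' {y : Eu k | ∀ j, a ≤ y j ∧ y j ≤ b} =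
      Set.Icc (fun _ => a) (fun _ => b) := by
    ext f
    simp only [Set.mem_preimage, Set.mem_Icc, Pi.le_def, ← forall_and]
    rfl
  rw [this, Real.volume_Icc_pi]
  simp

/-- a compact convex set close to a set containing a box contains a slightly smaller box -/
theorem box_sub_of_close {k : ℕ} {A : Set (Eu k)} (hA : Convex ℝ A) (hAk : IsCompact A)
    (hAn : A.Nonempty) {a b ρ : ℝ} (hρ : 0 < ρ)
    (h : ∀ y : Eu k, (∀ j, a ≤ y j ∧ y j ≤ b) → ∃ x ∈ A, dist x y < ρ) :
    {y : Eu k | ∀ j, a + ρ ≤ y j ∧ y j ≤ b - ρ} ⊆ A := by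
  intro y hy
  by_contra hyA
  obtain ⟨v, hv, hvy⟩ := exists_norm_eq_iInf_of_complete_convex hAn hAk.isComplete hA y
  rw [norm_eq_iInf_iff_real_inner_le_zero hA hv] at hvy
  have hne : y - v ≠ 0 := fun h0 => hyA (by rw [sub_eq_zero.1 h0]; exact hv)
  have hnpos : 0 < ‖y - v‖ := norm_pos_iff.2 hne
  set u := ‖y - v‖⁻¹ • (y - v) with hu
  have hun : ‖u‖ = 1 := by
    rw [hu, norm_smul, norm_inv, norm_norm, inv_mul_cancel₀ hnpos.ne']
  obtain ⟨x, hx, hxy⟩ := h (y + ρ • u) (fun j => by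
    have h1 := abs_coord_le (ρ • u) j
    rw [norm_smul, hun, mul_one, Real.norm_eq_abs, abs_of_pos hρ] at h1
    have h2 := abs_le.1 h1
    rw [PiLp.add_apply]
    obtain ⟨h3, h4⟩ := hy j
    constructor <;> linarith [h2.1, h2.2])
  rw [dist_comm, dist_eq_norm] at hxy
  have h1 := hvy x hx
  have h2 : inner ℝ (y + ρ • u - x) (y - v) ≤ ‖y + ρ • u - x‖ * ‖y - v‖ :=
    real_inner_le_norm _ _
  have h3 : inner ℝ (y + ρ • u - x) (y - v) =
      ρ * ‖y - v‖ + ‖y - v‖ ^ 2 - inner ℝ (y - v) (x - v) := by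
    have e : y + ρ • u - x = ρ • u + (y - v) - (x - v) := by abel
    rw [e, inner_sub_left, inner_add_left, inner_smul_left, hu, inner_smul_left,
      real_inner_self_eq_norm_sq, real_inner_comm (x - v)]
    simp only [conj_trivial]
    field_simp
  nlinarith

/-- lower bound for the content of a body with a big coordinate projection -/
theorem bodyContent_low {k : ℕ} {ι : Fin k → Fin d} (hι : Function.Injective ι) {K : Set (Eu d)}
    (hK : IsCompact K) (hK' : K.Nonempty) {ρ : ℝ} (hρ : 0 < ρ)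
    (h : {y : Eu k | ∀ j, 0 ≤ y j ∧ y j ≤ 4 * ρ} ⊆ cp ι '' K) :
    ENNReal.ofReal (2 * ρ) ^ k ≤ bodyContent k K := by
  refine le_iInf fun P => le_iInf fun hP => le_iInf fun hPK => ?_
  refine le_liminf_of_le (by isBoundedDefault) ?_
  filter_upwards [hPK.eventually (gt_mem_nhds hρ)] with m hm
  refine le_trans ?_ (volume_cp_le hι (hP m).1)
  have h1 : {y : Eu k | ∀ j, 0 + ρ ≤ y j ∧ y j ≤ 4 * ρ - ρ} ⊆ cp ι '' (P m) := by
    refine box_sub_of_close ((polytope_convex (hP m).1).linear_image _)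
      ((polytope_compact (hP m).1).image (continuous_cp ι))
      (((hP m).2.mono interior_subset).image _) hρ ?_
    intro y hy
    obtain ⟨q, hq, rfl⟩ := h hy
    obtain ⟨p, hp, hpq⟩ := Metric.exists_dist_lt_of_hausdorffDist_lt' hq hm
      (haus_ne_top (hP m) hK hK')
    refine ⟨cp ι p, Set.mem_image_of_mem _ hp, lt_of_le_of_lt ?_ hpq⟩
    have := (lipschitz_cp hι).dist_le_mul p q
    simpa using this
  refine le_trans (le_of_eq ?_) (measure_mono h1)
  rw [box_volume']
  congr 2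
  ring

theorem zetaBodies_not_convex (n : ℕ) : ¬ Convex ℝ (zetaBodies (n + 4)) := by
  have h := not_convex_of (n := n)
    {c | ∃ K : Set (Eu (n + 4)), IsBodyC1 K ∧ c = fun k => bodyContent k K} ?_ ?_
  · intro hc
    apply h
    have e : {z : Fin (n + 4) → ℝ | ∃ c ∈ {c : ℕ → ℝ≥0∞ | ∃ K : Set (Eu (n + 4)), IsBodyC1 K ∧
        c = fun k => bodyContent k K}, IsZetaVector c z} = zetaBodies (n + 4) := by
      ext z
      constructor
      · rintro ⟨c, ⟨P, hP, rfl⟩, hz⟩
        exact ⟨P, hP, hz⟩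
      · rintro ⟨P, hP, hz⟩
        exact ⟨_, ⟨P, hP, rfl⟩, hz⟩
    rw [e]
    exact hc
  · intro C₁ c₁ hC₁ hc₁
    obtain ⟨C₂, hC₂, hd⟩ := body_ineq (n := n) C₁ c₁ hC₁ hc₁
    refine ⟨C₂, hC₂, ?_⟩
    rintro c ⟨K, hK, rfl⟩ τ hτ h1 h2
    exact hd K hK.1 (hK.2.2.1.mono interior_subset) τ hτ h1 h2
  · obtain ⟨C, hC, hc⟩ := spx_content (n + 2)
    have hn4 : (0 : ℝ) < ((n + 4 : ℕ) : ℝ) := by positivity
    set ρ : ℝ := 1 / ((n + 4 : ℕ) : ℝ) / 4 with hρ
    have hρ0 : 0 < ρ := by positivity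
    have hρ1 : 2 * ρ ≤ 1 := by
      rw [hρ, div_div, ← mul_div_assoc, mul_one, div_le_one (by positivity)]
      push_cast
      linarith [(Nat.cast_nonneg n : (0 : ℝ) ≤ n)]
    have h4ρ : 4 * ρ = 1 / ((n + 4 : ℕ) : ℝ) := by rw [hρ]; ring
    refine ⟨C, (2 * ρ) ^ (n + 4), hC, by positivity, fun δ hδ hδ1 => ?_⟩
    set K : Set (Eu (n + 4)) := convexHull ℝ (spx (wt (n + 2) δ) : Set (Eu (n + 2 + 2))) with hKdef
    have hKP : IsPolytope K := spx_polytope (by omega) (fun i => wt_pos hδ i)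
    have hKk := polytope_compact hKP.1
    have hKne : K.Nonempty := hKP.2.mono interior_subset
    have hKB : IsBodyC1 K := ⟨hKk, polytope_convex hKP.1, hKP.2,
      (bodyContent_le hKP 1).trans_lt (content_lt_top hKP.1 1)⟩
    have hlow : ∀ k (hk : k ≤ n + 4) (ι : Fin k → Fin (n + 4)), Function.Injective ι →
        (∀ j, wt (n + 2) δ (ι j) = 1) →
        ENNReal.ofReal ((2 * ρ) ^ (n + 4)) ≤ bodyContent k K := by
      intro k hk ι hι hw
      have h1 := bodyContent_low hι hKk hKne hρ0 (by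
        intro y hy
        refine spx_proj_sup (by omega) hι (fun i => wt_pos hδ i) (fun j => ?_)
        rw [hw j, ← h4ρ]
        exact hy j)
      refine le_trans ?_ h1
      rw [← ENNReal.ofReal_pow (by positivity)]
      exact ENNReal.ofReal_le_ofReal (pow_le_pow_of_le_one (by positivity) hρ1 hk)
    refine ⟨_, ⟨K, hKB, rfl⟩, ?_, ?_, ?_, ?_⟩
    · intro k _ hk
      exact (bodyContent_le hKP k).trans (hc δ hδ hδ1 k hk).1
    · exact (bodyContent_le hKP _).trans ((hc δ hδ hδ1 (n + 3) (by omega)).2 (by omega))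
    · exact hlow (n + 2) (by omega) (Fin.castLE (by omega)) (Fin.castLE_injective _) (fun j => by
        unfold wt
        rw [if_pos]
        exact j.2)
    · rintro rfl
      exact hlow (n + 4) le_rfl id Function.injective_id (fun j => by
        unfold wt
        split_ifs <;> rfl)

end Pool.Agent.H884R2.Zeta
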